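import Pool.Agent.Y190.QP.SpA

/-!
The algebraic special set of the complements of coordinate hyperplanes: the main theorems.
-/

set_option autoImplicit false

open FF Pool.Agent.W603.LV Pool.Agent.W602.GT Pool.Agent.Y190.BV

namespace Pool.Agent.Y190.QP

variable {k : Type} [Field k] {N : ℕ} {ι : Type}

theorem U_cases (U : Set (Fin (N + 1))) :
    (∃ jj : Fin 3 → Fin (N + 1), Function.Injective jj ∧ ∀ i, jj i ∈ U) ∨
      ∃ j1 j2, ∀ j ∈ U, j = j1 ∨ j = j2 := by
  classical
  by_contra hcon
  push Not at hcon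
  obtain ⟨h1, h2⟩ := hcon
  obtain ⟨j1, hj1, -⟩ := h2 0 0
  obtain ⟨j2, hj2, hj21, -⟩ := h2 j1 j1
  obtain ⟨j3, hj3, hj31, hj32⟩ := h2 j1 j2
  obtain ⟨i, hi⟩ := h1 ![j1, j2, j3] (by
    intro i j hij
    fin_cases i <;> fin_cases j <;> simp_all)
  apply hi
  fin_cases i
  · exact hj1
  · exact hj2
  · exact hj3

theorem three_iff (U : Set (Fin (N + 1))) : 3 ≤ U.ncard ↔
    ∃ jj : Fin 3 → Fin (N + 1), Function.Injective jj ∧ ∀ i, jj i ∈ U := by
  constructor
  · intro h
    rcases U_cases U with h1 | ⟨j1, j2, h2⟩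
    · exact h1
    · exfalso
      have h3 : U ⊆ {j1, j2} := fun j hj => by
        rcases h2 j hj with rfl | rfl
        · exact Set.mem_insert _ _
        · exact Set.mem_insert_of_mem _ rfl
      have h4 := (Set.ncard_le_ncard h3 (Set.toFinite _)).trans (Set.ncard_insert_le j1 {j2})
      rw [Set.ncard_singleton] at h4
      omega
  · rintro ⟨jj, hjj, hU⟩
    have h1 : Set.range jj ⊆ U := by
      rintro _ ⟨i, rfl⟩
      exact hU i
    have h2 := Set.ncard_le_ncard h1 (Set.toFinite _)
    rwa [← Set.image_univ, Set.ncard_image_of_injective _ hjj, Set.ncard_univ,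
      Nat.card_eq_fintype_card, Fintype.card_fin] at h2

section ext

variable {K : Type} [Field K] [Algebra k K]

theorem gen_of_mem {C : IntermediateField k K} {t σ : K} (ht : Transcendental C t)
    (htop : IntermediateField.adjoin C {t} = ⊤) (h : t ∈ IntermediateField.adjoin C {σ}) :
    Transcendental C σ ∧ IntermediateField.adjoin C {σ} = ⊤ := by
  have h1 : IntermediateField.adjoin C {σ} = ⊤ := by
    rw [eq_top_iff, ← htop, IntermediateField.adjoin_simple_le_iff]
    exact h
  refine ⟨fun halg => ht ?_, h1⟩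
  have h2 : Algebra.IsAlgebraic C (IntermediateField.adjoin C {σ}) :=
    IntermediateField.isAlgebraic_adjoin_simple halg.isIntegral
  have h3 := h2.isAlgebraic ⟨t, h⟩
  exact h3.algebraMap

theorem z_ord {N : ℕ} {z : Fin (N + 1) → K} {P : Place k K}
    (hP : ∀ c ∈ coords k z, c ≠ 0 → P.ord c = 0) {i j : Fin (N + 1)} (hi : z i ≠ 0)
    (hj : z j ≠ 0) : P.ord (z i) = P.ord (z j) := by
  have h1 := hP (z i / z j) (IntermediateField.subset_adjoin k _ ⟨i, j, hj, rfl⟩)
    (div_ne_zero hi hj)
  rw [div_eq_mul_inv, P.ord_mul hi (inv_ne_zero hj), P.ord_inv] at h1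
  omega

/-- the places with trivial `t - a l` -/
theorem not_off {N : ℕ} {U : Set (Fin (N + 1))} {a : Fin (N + 1) → k} {y z : Fin (N + 1) → K}
    {t : K} (hyz : ∀ i, y i = (algebraMap k K (a i) - t) * z i) (hyU : ∀ j ∈ U, y j ≠ 0)
    {P : Place k K} (hP : ∀ c ∈ coords k z, c ≠ 0 → P.ord c = 0)
    (h : ∀ l ∈ U, P.ord (algebraMap k K (a l) - t) ≤ 0) : ¬ OffU U y P := by
  rintro ⟨l, hl, i, hi, hlt⟩
  have hl0 := hyU l hl
  rw [hyz] at hl0 hi
  have h1 := left_ne_zero_of_mul hl0
  have h2 := right_ne_zero_of_mul hl0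
  have h3 := left_ne_zero_of_mul hi
  have h4 := right_ne_zero_of_mul hi
  rw [hyz, hyz, P.ord_mul h1 h2, P.ord_mul h3 h4, z_ord hP h4 h2] at hlt
  have h5 := h l hl
  have h6 : Ge P (P.ord (algebraMap k K (a l) - t)) (algebraMap k K (a l) - t) := Or.inr le_rfl
  have h7 : Ge P (P.ord (algebraMap k K (a l) - t)) (algebraMap k K (a i - a l)) :=
    (Ge.const _).mono h5
  have h8 := h6.add h7
  have e : algebraMap k K (a l) - t + algebraMap k K (a i - a l) = algebraMap k K (a i) - t := by
    rw [map_sub]; ring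
  rw [e] at h8
  have h9 := h8.resolve_left h3
  omega

/-- The subvarieties with the structure of a cone over a subvariety are not of log general type if
there are at most two boundary hyperplanes. -/
theorem not_lgt_str [CharZero k] {N : ℕ} {U : Set (Fin (N + 1))} {j1 j2 : Fin (N + 1)}
    (hU : ∀ j ∈ U, j = j1 ∨ j = j2) {a : Fin (N + 1) → k} (ha : Function.Injective a)
    {y z : Fin (N + 1) → K} {t : K} (hyz : ∀ i, y i = (algebraMap k K (a i) - t) * z i)
    (hyU : ∀ j ∈ U, y j ≠ 0) (htr : Transcendental (coords k z) t)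
    (htop : IntermediateField.adjoin (coords k z) {t} = ⊤) (w : ℕ) :
    ¬ LogGeneralType k K w (OffU U y) := by
  classical
  have hc : ∀ (σ : K) (c : k), algebraMap k K c ∈ IntermediateField.adjoin (coords k z) {σ} := by
    intro σ c
    have := (IntermediateField.adjoin (coords k z) {σ}).algebraMap_mem
      (algebraMap k (coords k z) c)
    rwa [← IsScalarTower.algebraMap_apply k (coords k z) K] at this
  have hat : ∀ i, algebraMap k K (a i) - t ≠ 0 := by
    intro i h
    apply htr
    have h1 : t = algebraMap (coords k z) K (algebraMap k (coords k z) (a i)) := by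
      rw [← IsScalarTower.algebraMap_apply k (coords k z) K]
      exact (sub_eq_zero.1 h).symm
    rw [h1]
    exact isAlgebraic_algebraMap _
  by_cases hb : j1 ∈ U ∧ j2 ∈ U ∧ j1 ≠ j2
  · obtain ⟨h1, h2, h12⟩ := hb
    set σ : K := (algebraMap k K (a j1) - t) / (algebraMap k K (a j2) - t) with hσ
    have hne : algebraMap k K (a j2 - a j1) ≠ 0 := by
      rw [Ne, map_eq_zero, sub_eq_zero]
      exact fun h => h12 (ha h).symm
    have hσ1 : 1 - σ ≠ 0 := by
      intro h0
      apply hne
      have h3 : (1 - σ) * (algebraMap k K (a j2) - t) = algebraMap k K (a j2 - a j1) := by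
        rw [hσ, sub_mul, div_mul_cancel₀ _ (hat j2), map_sub]
        ring
      rw [← h3, h0, zero_mul]
    have hmem : t ∈ IntermediateField.adjoin (coords k z) {σ} := by
      have h3 : t = algebraMap k K (a j2) - algebraMap k K (a j2 - a j1) / (1 - σ) := by
        have h4 : (1 - σ) * (algebraMap k K (a j2) - t) = algebraMap k K (a j2 - a j1) := by
          rw [hσ, sub_mul, div_mul_cancel₀ _ (hat j2), map_sub]
          ring
        rw [← h4, mul_div_cancel_left₀ _ hσ1]
        ring
      rw [h3]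
      exact sub_mem (hc _ _) (div_mem (hc _ _) (sub_mem (one_mem _)
        (IntermediateField.mem_adjoin_simple_self _ σ)))
    obtain ⟨h3, h4⟩ := gen_of_mem htr htop hmem
    refine not_lgt_rat h3 h4 (fun P hP hPσ => not_off hyz hyU hP fun l hl => ?_) w
    have h5 : P.ord (algebraMap k K (a j1) - t) = P.ord (algebraMap k K (a j2) - t) := by
      rw [hσ, div_eq_mul_inv, P.ord_mul (hat j1) (inv_ne_zero (hat j2)), P.ord_inv] at hPσ
      omega
    have h6 : P.ord (algebraMap k K (a j2) - t) ≤ 0 := by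
      by_contra hcon
      push Not at hcon
      have h7 : Ge P 1 (algebraMap k K (a j2) - t) := Or.inr (by omega)
      have h8 : Ge P 1 (algebraMap k K (a j1) - t) := Or.inr (by omega)
      have h9 := h7.sub h8
      have e : algebraMap k K (a j2) - t - (algebraMap k K (a j1) - t) =
          algebraMap k K (a j2 - a j1) := by
        rw [map_sub]; ring
      rw [e] at h9
      have h10 := h9.resolve_left hne
      rw [P.ord_const (sub_ne_zero.2 fun h => h12 (ha h).symm)] at h10
      omega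
    rcases hU l hl with rfl | rfl
    · omega
    · exact h6
  · obtain ⟨j, hj⟩ : ∃ j, ∀ l ∈ U, l = j := by
      by_cases h1 : j1 ∈ U
      · refine ⟨j1, fun l hl => ?_⟩
        rcases hU l hl with h | h
        · exact h
        · by_contra hne
          exact hb ⟨h1, h ▸ hl, fun h' => hne (h.trans h'.symm)⟩
      · refine ⟨j2, fun l hl => ?_⟩
        rcases hU l hl with h | h
        · exact absurd (h ▸ hl) h1
        · exact h
    set σ : K := algebraMap k K (a j) - t with hσ
    have hmem : t ∈ IntermediateField.adjoin (coords k z) {σ} := by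
      have h3 : t = algebraMap k K (a j) - σ := by rw [hσ]; ring
      rw [h3]
      exact sub_mem (hc _ _) (IntermediateField.mem_adjoin_simple_self _ σ)
    obtain ⟨h3, h4⟩ := gen_of_mem htr htop hmem
    refine not_lgt_rat h3 h4 (fun P hP hPσ => not_off hyz hyU hP fun l hl => ?_) w
    rw [hj l hl, ← hσ, hPσ]

end ext

theorem wedge_ne {K : Type} [Field K] [Algebra k K] {a : Fin (N + 1) → k}
    (ha : Function.Injective a) {y z : Fin (N + 1) → K} {t : K}
    (hyz : ∀ i, y i = (algebraMap k K (a i) - t) * z i) {i j : Fin (N + 1)} (hij : i ≠ j)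
    (hi : z i ≠ 0) (hj : z j ≠ 0) : y i * z j - y j * z i ≠ 0 := by
  rw [hyz i, hyz j]
  have e : (algebraMap k K (a i) - t) * z i * z j - (algebraMap k K (a j) - t) * z j * z i =
      algebraMap k K (a i - a j) * (z i * z j) := by
    rw [map_sub]; ring
  rw [e]
  exact mul_ne_zero ((_root_.map_ne_zero _).2 (sub_ne_zero.2 fun h => hij (ha h)))
    (mul_ne_zero hi hj)

variable {n m w : ℕ}

theorem sub_extU [IsAlgClosed k] {K : Type} [Field K] [Algebra k K] {U : Set (Fin (N + 1))}
    {F : ι → MvPolynomial (Fin (N + 1)) k} {a : Fin (N + 1) → k}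
    (hsub : ConeU U F ⊆ Cone (buchi a n m)) {y : Fin (N + 1) → K} (hy0 : y ≠ 0)
    (hyU : ∀ j ∈ U, y j ≠ 0) (hy : ∀ e, val y (F e) = 0) (l : Rel a n) :
    val y (buchi a n m l) = 0 :=
  val_of_cone hy0 hyU hy fun _ hx => (hsub hx).2 l

variable [IsAlgClosed k] [CharZero k]

/-- **The algebraic special set.** -/
theorem spAlgU_eq' (hm : 2 ≤ m) (hnm : n < 2 * m) (hN : 4 * n + (n + 1) ^ 2 < 2 * (N + 1))
    {a : Fin (N + 1) → k} (ha : Function.Injective a) {U : Set (Fin (N + 1))}
    {F : ι → MvPolynomial (Fin (N + 1)) k} (hF : ∀ e, IsForm (F e))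
    (hsub : ConeU U F ⊆ Cone (buchi a n m)) : SpAlgU U F = SpL U F := by
  have hinf : Infinite k := inferInstance
  refine Set.Subset.antisymm ?_ ?_
  · rintro x ⟨hx, h⟩
    refine ⟨hx, fun G hG hL => h G hG ?_⟩
    intro K _ _ w y hw hy hgt
    have hchK : CharZero K := charZero_of_injective_algebraMap (algebraMap k K).injective
    have hinfK : Infinite K := inferInstance
    have hy' : SubVar (buchi a n m) K w y :=
      ⟨hy.ne, sub_extU hsub hy.ne hy.unit hy.mem, hy.gen, hy.dim⟩
    rcases U_cases U with ⟨jj, hjj, hjU⟩ | ⟨j1, j2, hU⟩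
    · exact absurd (lgt_three hm hnm hN ha hy' hy.unit hjj hjU) hgt
    · obtain ⟨-, t, z, hyz, -, ⟨i, j, hij, hi, hj⟩, htr, -⟩ :=
        structure_thm hm hnm hN ha hy' (fun h => hgt (lgt_of_gt h))
      exact vanish_gm hU y z hy.unit ⟨i, j, wedge_ne ha hyz hij hi hj⟩
        (fun c c' e => line_vanish hyz hi htr (hF e) (hy.mem e) c c') hL
  · rintro x ⟨hx, h⟩
    refine ⟨hx, fun G hG hA => h G hG ?_⟩
    intro a' b' hab c c' hc hc'
    obtain ⟨y, hy, hgt, hyG⟩ := gm_subvar hab
    have h1 := hyG G (hA _ 1 y le_rfl hy hgt) (c' / c) (div_ne_zero hc' hc)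
    obtain ⟨d, hd⟩ := hG
    have h2 := val_smul hd c (a' + (c' / c) • b')
    have e : (fun i => c * (a' + (c' / c) • b') i) = c • a' + c' • b' := by
      funext i
      simp only [Pi.add_apply, Pi.smul_apply, smul_eq_mul]
      field_simp
    rw [e, h1, mul_zero] at h2
    exact h2

theorem spAlgU_empty {a : Fin (N + 1) → k} (hm : 2 ≤ m) (hnm : n < 2 * m)
    (hN : 4 * n + (n + 1) ^ 2 < 2 * (N + 1)) (ha : Function.Injective a)
    {U : Set (Fin (N + 1))} {F : ι → MvPolynomial (Fin (N + 1)) k}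
    (hsub : ConeU U F ⊆ Cone (buchi a n m)) (hU : 3 ≤ U.ncard) : SpAlgU U F = ∅ := by
  obtain ⟨jj, hjj, hjU⟩ := (three_iff U).1 hU
  rw [Set.eq_empty_iff_forall_notMem]
  intro x hx
  have h1 := hx.2 1 ⟨0, MvPolynomial.isHomogeneous_one _ _⟩ (by
    intro K _ _ w y _ hy hgt
    exact absurd (lgt_three hm hnm hN ha ⟨hy.ne, sub_extU hsub hy.ne hy.unit hy.mem, hy.gen,
      hy.dim⟩ hy.unit hjj hjU) hgt)
  unfold val at h1
  rw [map_one] at h1
  exact one_ne_zero h1

/-- **The equivalence of Lang in the open case.** -/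
theorem lang_equivU (hm : 2 ≤ m) (hnm : n < 2 * m) (hN : 4 * n + (n + 1) ^ 2 < 2 * (N + 1))
    {a : Fin (N + 1) → k} (ha : Function.Injective a) {U : Set (Fin (N + 1))}
    {F : ι → MvPolynomial (Fin (N + 1)) k} (hF : ∀ e, IsForm (F e))
    (hsub : ConeU U F ⊆ Cone (buchi a n m)) {K : Type} [Field K] [Algebra k K]
    {y : Fin (N + 1) → K} (hw : 1 ≤ w) (hy : SubVarU U F K w y)
    (hgen : ∀ G : MvPolynomial (Fin (N + 1)) k, IsForm G →
      (val y G = 0 ↔ ∀ x ∈ ConeU U F, val x G = 0)) :
    [LogGeneralType k K w (OffU U y), SpAlgU U F ≠ ConeU U F, SpL U F ≠ ConeU U F,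
      3 ≤ U.ncard ∨ ¬ Ruled k K].TFAE := by
  classical
  have h1 := spAlgU_eq' hm hnm hN ha hF hsub
  have hyb : SubVar (buchi a n m) K w y :=
    ⟨hy.ne, sub_extU hsub hy.ne hy.unit hy.mem, hy.gen, hy.dim⟩
  have hne : (ConeU U F).Nonempty := by
    by_contra hcon
    rw [Set.not_nonempty_iff_eq_empty] at hcon
    have h2 := (hgen 1 ⟨0, MvPolynomial.isHomogeneous_one _ _⟩).2 (by
      intro x hx
      rw [hcon] at hx
      exact absurd hx (Set.notMem_empty x))
    unfold val at h2
    rw [map_one] at h2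
    exact one_ne_zero h2
  tfae_have 1 → 4 := by
    intro h
    by_contra hcon
    push Not at hcon
    obtain ⟨hU3, C, s, hs, hstop⟩ := hcon
    rcases U_cases U with hj | ⟨j1, j2, hU⟩
    · exact absurd ((three_iff U).2 hj) (by omega)
    · obtain ⟨-, t, z, hyz, -, -, htr, htop⟩ :=
        structure_thm hm hnm hN ha hyb (not_gt_ruled hs hstop w)
      exact not_lgt_str hU ha hyz hy.unit htr htop w h
  tfae_have 4 → 2 := by
    intro h
    by_cases hU3 : 3 ≤ U.ncard
    · rw [spAlgU_empty hm hnm hN ha hsub hU3]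
      exact hne.ne_empty.symm
    · intro heq
      refine (h.resolve_left hU3) ?_
      let F' : {G : MvPolynomial (Fin (N + 1)) k // IsForm G ∧ val y G = 0} →
        MvPolynomial (Fin (N + 1)) k := fun G => G.1
      have hden : ∀ G : MvPolynomial (Fin (N + 1)) k, IsForm G → val y G ≠ 0 →
          ∃ (K' : Type) (_ : Field K') (_ : Algebra k K') (w' : ℕ) (x : Fin (N + 1) → K'),
          SubVar F' K' w' x ∧ ¬ GeneralType k K' w' ∧ val x G ≠ 0 := by
        intro G hG hGy
        by_contra hcon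
        push Not at hcon
        apply hGy
        rw [hgen G hG]
        intro x hx
        rw [← heq] at hx
        refine hx.2 G hG ?_
        intro K' _ _ w' x' _ hx' hgt
        refine hcon K' inferInstance inferInstance w' x' ⟨hx'.ne, ?_, hx'.gen, hx'.dim⟩
          (fun h => hgt (lgt_of_gt h))
        rintro ⟨G', hG', hG'y⟩
        exact val_of_cone hx'.ne hx'.unit hx'.mem ((hgen G' hG').1 hG'y)
      obtain ⟨t, z, -, ht, htop⟩ := ruled_of_dense hm hnm hN ha (F := F') (y := y) (w := w)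
        (fun x hx => ⟨hx.1, fun l => hx.2 ⟨buchi a n m l, isForm_buchi a n m l,
          hyb.mem l⟩⟩) ⟨hy.ne, fun e => e.2.2, hy.gen, hy.dim⟩
        (fun G hG hGy x hx => hx.2 ⟨G, hG, hGy⟩) hden
      exact ⟨coords k z, t, ht, htop⟩
  tfae_have 2 → 1 := by
    intro h
    by_contra hgt
    apply h
    refine Set.Subset.antisymm (fun x hx => hx.1) fun x hx => ⟨hx, fun G hG hall => ?_⟩
    exact (hgen G hG).1 (hall K w y hw hy hgt) x hx
  tfae_have 2 ↔ 3 := by rw [h1]
  tfae_finish

end Pool.Agent.Y190.QP
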