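import Pool.Agent.W602.GT.SpThm
import Pool.Agent.W602.GT.PsDefs
import Pool.Agent.Y190.BV.Spz

/-!
Lines which meet the boundary of a quasi-projective variety in at most two points.
-/

set_option autoImplicit false

open FF Pool.Agent.W603.LV Pool.Agent.W602.GT Pool.Agent.Y190.BV

namespace Pool.Agent.Y190.QP

variable {k : Type} [Field k] {N : ℕ} {ι : Type}

/-- The points `a`, `b` span a line, and all its points, except possibly `a` and `b`, lie in the
quasi-projective variety `X = {F = 0, x_j ≠ 0 for all j in U}`. -/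
def GmLine (U : Set (Fin (N + 1))) (F : ι → MvPolynomial (Fin (N + 1)) k)
    (a b : Fin (N + 1) → k) : Prop :=
  LinearIndependent k ![a, b] ∧ ∀ c c' : k, c ≠ 0 → c' ≠ 0 → c • a + c' • b ∈ ConeU U F

/-- The Zariski closure in `X` of the union of the lines which meet the complement of `X` in at most
two points (as a cone). -/
def SpL (U : Set (Fin (N + 1))) (F : ι → MvPolynomial (Fin (N + 1)) k) :
    Set (Fin (N + 1) → k) :=
  {x | x ∈ ConeU U F ∧ ∀ G : MvPolynomial (Fin (N + 1)) k, IsForm G →
    (∀ a b, GmLine U F a b → ∀ c c' : k, c ≠ 0 → c' ≠ 0 → val (c • a + c' • b) G = 0) →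
      val x G = 0}

/-- two linear forms on the plane -/
theorem plane (s1 s1' s2 s2' : k) (h1 : s1 ≠ 0 ∨ s1' ≠ 0) (h2 : s2 ≠ 0 ∨ s2' ≠ 0) :
    ∃ α β γ δ : k, α * δ - β * γ ≠ 0 ∧
      (∀ c c' : k, c ≠ 0 → c' ≠ 0 → c * (s1 * α + s1' * β) + c' * (s1 * γ + s1' * δ) ≠ 0) ∧
      ∀ c c' : k, c ≠ 0 → c' ≠ 0 → c * (s2 * α + s2' * β) + c' * (s2 * γ + s2' * δ) ≠ 0 := by
  by_cases hd : s1 * s2' - s1' * s2 = 0
  · by_cases hs : s1 = 0
    · have hs1' : s1' ≠ 0 := h1.resolve_left fun h => h hs
      have hs2 : s2 = 0 := by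
        rw [hs, zero_mul, zero_sub, neg_eq_zero] at hd
        exact (mul_eq_zero.1 hd).resolve_left hs1'
      have hs2' : s2' ≠ 0 := h2.resolve_left fun h => h hs2
      refine ⟨s1', -s1, 0, 1, ?_, fun c c' _ hc' => ?_, fun c c' _ hc' => ?_⟩
      · simpa using hs1'
      · rw [hs]
        simpa using ⟨hc', hs1'⟩
      · rw [hs, hs2]
        simpa using ⟨hc', hs2'⟩
    · have hs2 : s2 ≠ 0 := by
        intro h
        rw [h, mul_zero, sub_zero] at hd
        exact (h2.resolve_left fun h' => h' h) ((mul_eq_zero.1 hd).resolve_left hs)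
      refine ⟨s1', -s1, 1, 0, ?_, fun c c' _ hc' => ?_, fun c c' _ hc' => ?_⟩
      · simpa using hs
      · have e : c * (s1 * s1' + s1' * -s1) + c' * (s1 * 1 + s1' * 0) = c' * s1 := by ring
        rw [e]
        exact mul_ne_zero hc' hs
      · have e : c * (s2 * s1' + s2' * -s1) + c' * (s2 * 1 + s2' * 0) =
            c' * s2 - c * (s1 * s2' - s1' * s2) := by ring
        rw [e, hd, mul_zero, sub_zero]
        exact mul_ne_zero hc' hs2
  · refine ⟨s1', -s1, s2', -s2, ?_, fun c c' _ hc' => ?_, fun c c' hc _ => ?_⟩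
    · have e : s1' * -s2 - -s1 * s2' = s1 * s2' - s1' * s2 := by ring
      rw [e]
      exact hd
    · have e : c * (s1 * s1' + s1' * -s1) + c' * (s1 * s2' + s1' * -s2) =
          c' * (s1 * s2' - s1' * s2) := by ring
      rw [e]
      exact mul_ne_zero hc' hd
    · have e : c * (s2 * s1' + s2' * -s1) + c' * (s2 * s2' + s2' * -s2) =
          - (c * (s1 * s2' - s1' * s2)) := by ring
      rw [e]
      exact neg_ne_zero.2 (mul_ne_zero hc hd)

theorem lin_move {a b : Fin (N + 1) → k} (hab : LinearIndependent k ![a, b]) {p q r s : k}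
    (h : p * s - q * r ≠ 0) : LinearIndependent k ![p • a + q • b, r • a + s • b] := by
  have hli := LinearIndependent.pair_iff.1 hab
  rw [LinearIndependent.pair_iff]
  intro c c' hcc
  have h3 : (c * p + c' * r) • a + (c * q + c' * s) • b = 0 := by
    rw [← hcc]
    funext i
    simp
    ring
  obtain ⟨e1, e2⟩ := hli _ _ h3
  constructor
  · have : c * (p * s - q * r) = 0 := by linear_combination s * e1 - r * e2
    exact (mul_eq_zero.1 this).resolve_right h
  · have : c' * (p * s - q * r) = 0 := by linear_combination p * e2 - q * e1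
    exact (mul_eq_zero.1 this).resolve_right h

/-- lines of the closure which are not in the boundary -/
theorem exists_gm {U : Set (Fin (N + 1))} {j1 j2 : Fin (N + 1)} (hU : ∀ j ∈ U, j = j1 ∨ j = j2)
    {F : ι → MvPolynomial (Fin (N + 1)) k} {p p' : Fin (N + 1) → k} (hL : Line F p p')
    (hin : ∀ j ∈ U, p j ≠ 0 ∨ p' j ≠ 0) :
    ∃ α β γ δ : k, α * δ - β * γ ≠ 0 ∧ GmLine U F (α • p + β • p') (γ • p + δ • p') := by
  classical
  obtain ⟨α, β, γ, δ, hdet, h1, h2⟩ := plane (if j1 ∈ U then p j1 else 1)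
    (if j1 ∈ U then p' j1 else 0) (if j2 ∈ U then p j2 else 1) (if j2 ∈ U then p' j2 else 0)
    (by
      split_ifs with h
      · exact hin j1 h
      · exact Or.inl one_ne_zero) (by
      split_ifs with h
      · exact hin j2 h
      · exact Or.inl one_ne_zero)
  have hlin := lin_move hL.1 hdet
  refine ⟨α, β, γ, δ, hdet, hlin, fun c c' hc hc' => ⟨fun h0 => ?_, fun j hj => ?_, fun e => ?_⟩⟩
  · exact hc (LinearIndependent.pair_iff.1 hlin c c' h0).1
  · have hval : (c • (α • p + β • p') + c' • (γ • p + δ • p')) j =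
        c * (p j * α + p' j * β) + c' * (p j * γ + p' j * δ) := by
      simp only [Pi.add_apply, Pi.smul_apply, smul_eq_mul]
      ring
    rw [hval]
    rcases hU j hj with rfl | rfl
    · have := h1 c c' hc hc'
      rwa [if_pos hj, if_pos hj] at this
    · have := h2 c c' hc hc'
      rwa [if_pos hj, if_pos hj] at this
  · have e : c • (α • p + β • p') + c' • (γ • p + δ • p') =
        (c * α + c' * γ) • p + (c * β + c' * δ) • p' := by
      funext i
      simp only [Pi.add_apply, Pi.smul_apply, smul_eq_mul]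
      ring
    rw [e]
    exact hL.2 _ _ _

/-- a polynomial which vanishes on the open part of a line vanishes on the line -/
theorem line_all [Infinite k] {G : MvPolynomial (Fin (N + 1)) k} {a b : Fin (N + 1) → k}
    (h : ∀ c c' : k, c ≠ 0 → c' ≠ 0 → val (c • a + c' • b) G = 0) (c c' : k) :
    val (c • a + c' • b) G = 0 := by
  have key : ∀ x v : Fin (N + 1) → k, (∀ t : k, t ≠ 0 → val (x + t • v) G = 0) →
      val x G = 0 := by
    intro x v hx
    obtain ⟨Q, hQ, -⟩ := val_poly
      (fun i => Polynomial.C (x i) + Polynomial.X * Polynomial.C (v i)) G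
    have hQ' : ∀ t : k, Q.eval t = val (x + t • v) G := by
      intro t
      rw [hQ]
      congr 1
      funext i
      simp only [Polynomial.eval_add, Polynomial.eval_mul, Polynomial.eval_C, Polynomial.eval_X,
        Pi.add_apply, Pi.smul_apply, smul_eq_mul]
    have hQ0 : Q = 0 := poly_zero fun t ht => by rw [hQ']; exact hx t ht
    have h1 := hQ' 0
    rw [hQ0, Polynomial.eval_zero, zero_smul, add_zero] at h1
    exact h1.symm
  have h1 : ∀ c : k, c ≠ 0 → ∀ c' : k, val (c • a + c' • b) G = 0 := by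
    intro c hc c'
    by_cases hc' : c' = 0
    · rw [hc', zero_smul, add_zero]
      exact key _ b fun t ht => h c t hc ht
    · exact h c c' hc hc'
  by_cases hc : c = 0
  · rw [hc, zero_smul, zero_add]
    refine key _ a fun t ht => ?_
    rw [add_comm]
    exact h1 t ht c'
  · exact h1 c hc c'

/-- **The forms which vanish on the lines of `X` vanish at the points over extensions which lie on
lines.** -/
theorem vanish_gm [IsAlgClosed k] {K : Type} [Field K] [Algebra k K] {U : Set (Fin (N + 1))}
    {j1 j2 : Fin (N + 1)} (hU : ∀ j ∈ U, j = j1 ∨ j = j2)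
    {F : ι → MvPolynomial (Fin (N + 1)) k} (y v : Fin (N + 1) → K)
    (hyU : ∀ j ∈ U, y j ≠ 0) (hyv : ∃ i j, y i * v j - y j * v i ≠ 0)
    (hline : ∀ (c c' : K) (e : ι), val (fun l => c * y l + c' * v l) (F e) = 0)
    {G : MvPolynomial (Fin (N + 1)) k}
    (hG : ∀ a b, GmLine U F a b → ∀ c c' : k, c ≠ 0 → c' ≠ 0 → val (c • a + c' • b) G = 0) :
    val y G = 0 := by
  classical
  have hinf : Infinite k := inferInstance
  let E : MvPolynomial (Fin (N + 1)) k :=
    ∏ j ∈ Finset.univ.filter (fun j => j ∈ U), MvPolynomial.X j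
  have hE : ∀ {M : Type} [Field M] [Algebra k M] (x : Fin (N + 1) → M),
      val x E = ∏ j ∈ Finset.univ.filter (fun j => j ∈ U), x j := by
    intro M _ _ x
    unfold val
    simp only [E, map_prod, MvPolynomial.aeval_X]
  have h1 : val y (G * E) = 0 := by
    refine mem_closure y v hyv hline fun a b hab c c' => ?_
    rw [val_mul']
    by_cases hin : ∀ j ∈ U, a j ≠ 0 ∨ b j ≠ 0
    · obtain ⟨α, β, γ, δ, hdet, hgm⟩ := exists_gm hU hab hin
      have h2 := line_all (hG _ _ hgm) ((c * δ - c' * γ) / (α * δ - β * γ))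
        ((c' * α - c * β) / (α * δ - β * γ))
      have e : ((c * δ - c' * γ) / (α * δ - β * γ)) • (α • a + β • b) +
          ((c' * α - c * β) / (α * δ - β * γ)) • (γ • a + δ • b) = c • a + c' • b := by
        funext i
        simp only [Pi.add_apply, Pi.smul_apply, smul_eq_mul]
        have e1 : (c * δ - c' * γ) / (α * δ - β * γ) * (α * a i + β * b i) +
            (c' * α - c * β) / (α * δ - β * γ) * (γ * a i + δ * b i) =
            (c * a i + c' * b i) * (α * δ - β * γ) / (α * δ - β * γ) := by ring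
        rw [e1, mul_div_cancel_right₀ _ hdet]
      rw [e] at h2
      rw [h2, zero_mul]
    · push Not at hin
      obtain ⟨j, hj, ha, hb⟩ := hin
      rw [hE, Finset.prod_eq_zero (Finset.mem_filter.2 ⟨Finset.mem_univ j, hj⟩), mul_zero]
      simp [ha, hb]
  rw [val_mul', hE] at h1
  exact (mul_eq_zero.1 h1).resolve_right
    (Finset.prod_ne_zero_iff.2 fun j hj => hyU j (Finset.mem_filter.1 hj).2)

end Pool.Agent.Y190.QP
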