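import Pool.Agent.Y190.QP.Lext

/-!
Function fields which are generated, up to algebraic extension, by the roots of a ramified
polynomial and by one more element with three punctures, are of logarithmic general type.
-/

set_option autoImplicit false

open FF Pool.Agent.W603.LV Pool.Agent.W602.GT Pool.Agent.Y190.BV Cardinal

namespace Pool.Agent.Y190.QP

section fam

variable {k L : Type} [Field k] [Field L] [Algebra k L] {w : ℕ}

theorem basis_t {L0 : IntermediateField k L} {t : L} (htt : Transcendental L0 t)
    (hS : Algebra.IsAlgebraic (IntermediateField.adjoin L0 {t}) L) :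
    IsTranscendenceBasis L0 (fun _ : Unit => t) := by
  have h1 : AlgebraicIndependent L0 (fun _ : Unit => t) :=
    (algebraicIndependent_unique_type_iff).2 htt
  rw [h1.isTranscendenceBasis_iff_isAlgebraic]
  apply IntermediateField.isAlgebraic_adjoin_iff_top.1
  have h2 : Set.range (fun _ : Unit => t) = {t} := by simp
  rw [h2]
  exact hS

/-- adding one element to a transcendence basis of a subfield -/
theorem basis_cons {L0 : IntermediateField k L} {t : L} (htt : Transcendental L0 t)
    (hS : Algebra.IsAlgebraic (IntermediateField.adjoin L0 {t}) L) {x : Fin w → L0}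
    (hx : IsTranscendenceBasis k x) :
    IsTranscendenceBasis k (Fin.cons t (fun j => (x j : L)) : Fin (w + 1) → L) := by
  have h1 := hx.sumElim_comp (basis_t htt hS)
  let E : Fin (w + 1) ≃ Unit ⊕ Fin w := (finSuccEquiv w).trans
    ((Equiv.optionEquivSumPUnit _).trans (Equiv.sumComm _ _))
  have h2 := h1.comp_equiv E
  convert h2 using 1
  funext i
  refine Fin.cases ?_ (fun l => ?_) i
  · simp [E]
  · simp [E]

theorem trdeg_sub {L0 : IntermediateField k L} {t : L} (htt : Transcendental L0 t)
    (hS : Algebra.IsAlgebraic (IntermediateField.adjoin L0 {t}) L)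
    (htr : Algebra.trdeg k L = (w + 1 : ℕ)) : Algebra.trdeg k L0 = w := by
  have h1 := trdeg_add_eq (R := k) (S := L0) (A := L)
  have h2 : Algebra.trdeg L0 L = 1 := by
    rw [← (basis_t htt hS).cardinalMk_eq_trdeg]
    simp
  rw [h2, htr, Nat.cast_add, Nat.cast_one] at h1
  exact Cardinal.add_one_inj.1 h1

/-- **Families of transcendence bases** -/
theorem exists_families_t [IsAlgClosed k] (htr : Algebra.trdeg k L = (w + 1 : ℕ)) {d : ℕ}
    (r : Fin d → L) {t : L}
    (htt : Transcendental (IntermediateField.adjoin k (Set.range r)) t)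
    (hS : Algebra.IsAlgebraic (IntermediateField.adjoin
      (IntermediateField.adjoin k (Set.range r)) {t}) L) :
    ∃ (ι : Type) (_ : Fintype ι) (_ : Nonempty ι) (J : ι → Fin w → L),
      w ≤ d ∧ Fintype.card ι ≤ d + 1 - w ∧
      (∀ l, IsTranscendenceBasis k (Fin.cons t (J l) : Fin (w + 1) → L)) ∧
      (∀ l j, ∃ i, J l j = r i) ∧
      ∀ i, (∃ y : k, r i = algebraMap k L y) ∨ ∃ l j, J l j = r i := by
  set L0 := IntermediateField.adjoin k (Set.range r) with hL0
  have htr0 : Algebra.trdeg k L0 = w := trdeg_sub htt hS htr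
  let r0 : Fin d → L0 := fun i => ⟨r i, IntermediateField.subset_adjoin k _ ⟨i, rfl⟩⟩
  have hr0 : IntermediateField.adjoin k (Set.range r0) = ⊤ := by
    have h1 := IntermediateField.adjoin_map k (Set.range r0) L0.val
    have h2 : (L0.val : L0 → L) '' (Set.range r0) = Set.range r := by
      rw [← Set.range_comp]
      rfl
    rw [h2] at h1
    rw [eq_top_iff]
    rintro ⟨x, hx⟩ _
    have hx' : x ∈ (IntermediateField.adjoin k (Set.range r0)).map L0.val := by
      rw [h1]; exact hx
    obtain ⟨z, hz, hzx⟩ := hx'
    have h3 : (⟨x, hx⟩ : L0) = z := Subtype.ext hzx.symm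
    rw [h3]
    exact hz
  have hS0 : Algebra.IsAlgebraic (Algebra.adjoin k (Set.range r0)) L0 := by
    apply IntermediateField.isAlgebraic_adjoin_iff_top.1
    rw [hr0]
    infer_instance
  obtain ⟨ι, h1, h2, J, h3, h4, h5, h6, h7⟩ := exists_families htr0 r0 hS0
  refine ⟨ι, h1, h2, fun l j => (J l j : L), h3, h4, fun l => basis_cons htt hS (h5 l), ?_, ?_⟩
  · intro l j
    obtain ⟨i, hi⟩ := h6 l j
    exact ⟨i, congrArg Subtype.val hi⟩
  · intro i
    rcases h7 i with ⟨y, hy⟩ | ⟨l, j, hlj⟩
    · exact Or.inl ⟨y, congrArg Subtype.val hy⟩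
    · exact Or.inr ⟨l, j, congrArg Subtype.val hlj⟩

end fam

variable {k K : Type} [Field k] [Field K] [Algebra k K]

/-- the norms of the translates of the generators and `t` contain a transcendence basis -/
theorem exists_norm_basis_t {L : Type} [Field L] [Algebra k L] [Algebra K L]
    [IsScalarTower k K L] [FiniteDimensional K L] [Infinite k] {w : ℕ}
    (htr : Algebra.trdeg k K = w) {d : ℕ} (r : Fin d → L) (t : K)
    (hS : Algebra.IsAlgebraic (IntermediateField.adjoin k
      (insert (algebraMap K L t) (Set.range r))) L) :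
    ∃ x : Fin w → K, IsTranscendenceBasis k x ∧ ∀ j, x j = t ∨
      ∃ (i : Fin d) (y : k), x j = Algebra.norm K (r i - algebraMap k L y) := by
  let S : Set K := insert t
    (Set.range fun p : Fin d × k => Algebra.norm K (r p.1 - algebraMap k L p.2))
  let F0 := IntermediateField.adjoin k S
  have h1 : ∀ i, IsAlgebraic F0 (r i) := fun i =>
    alg_norms F0 (r i) fun y => IntermediateField.subset_adjoin k S
      (Set.mem_insert_of_mem _ ⟨(i, y), rfl⟩)
  let F1 : IntermediateField F0 L := algebraicClosure F0 L
  have h2 : Algebra.IsAlgebraic F1 L := by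
    have hle : IntermediateField.adjoin k (insert (algebraMap K L t) (Set.range r)) ≤
        F1.restrictScalars k := by
      rw [IntermediateField.adjoin_le_iff]
      rintro x (rfl | ⟨i, rfl⟩)
      · have h3 : algebraMap K L t = algebraMap F0 L
          ⟨t, IntermediateField.subset_adjoin k S (Set.mem_insert _ _)⟩ := rfl
        rw [h3]
        exact F1.algebraMap_mem _
      · exact mem_algebraicClosure_iff.2 (h1 i)
    let _ : Algebra (IntermediateField.adjoin k (insert (algebraMap K L t) (Set.range r))) F1 :=
      (IntermediateField.inclusion hle).toRingHom.toAlgebra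
    have : IsScalarTower (IntermediateField.adjoin k
        (insert (algebraMap K L t) (Set.range r))) F1 L :=
      IsScalarTower.of_algebraMap_eq fun x => rfl
    exact Algebra.IsAlgebraic.extendScalars
      (R := IntermediateField.adjoin k (insert (algebraMap K L t) (Set.range r)))
      (IntermediateField.inclusion hle).toRingHom.injective
  have h3 : Algebra.IsAlgebraic F0 F1 := algebraicClosure.isAlgebraic F0 L
  have h4 : Algebra.IsAlgebraic F0 L := Algebra.IsAlgebraic.trans F0 F1 L
  have h5 : Algebra.IsAlgebraic F0 K := Algebra.IsAlgebraic.tower_bot F0 K L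
  have h6 : Algebra.IsAlgebraic (Algebra.adjoin k S) K :=
    IntermediateField.isAlgebraic_adjoin_iff_top.1 h5
  obtain ⟨x, hx, hxS⟩ := exists_basis_in htr S h6
  refine ⟨x, hx, fun j => ?_⟩
  rcases hxS j with h | ⟨p, hp⟩
  · exact Or.inl h
  · exact Or.inr ⟨p.1, p.2, hp.symm⟩

/-- **The algebraic core** with one more element. -/
theorem core_t [IsAlgClosed k] [CharZero k] {L : Type} [Field L] [Algebra k L] [Algebra K L]
    [IsScalarTower k K L] [FiniteDimensional K L] [IsGalois K L] {w : ℕ}
    (htr : Algebra.trdeg k K = (w + 1 : ℕ)) (F : Polynomial K) (hF : F.Separable)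
    (hs : (F.map (algebraMap K L)).Splits) (t : K)
    (htt : Transcendental (IntermediateField.adjoin k (F.rootSet L)) (algebraMap K L t))
    (hS : Algebra.IsAlgebraic (IntermediateField.adjoin
      (IntermediateField.adjoin k (F.rootSet L)) {algebraMap K L t}) L)
    {q : ℕ} (a : Fin q → k) (ha : Function.Injective a) (A : ℕ) (c : Fin q → ℕ)
    (hcA : ∀ i, c i ≤ A)
    (hbound : A * (F.natDegree + w * (F.natDegree + 1 - w)) < ∑ i, c i)
    (h0 : ∀ i, F.eval (algebraMap k K (a i)) ≠ 0) (b : Fin 3 → k) (hb : Function.Injective b)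
    (Bd : Place k K → Prop)
    (hBd : ∀ P : Place k K, (∃ i, 0 < P.ord (t - algebraMap k K (b i))) → Bd P)
    (hram : ∀ P : Place k K, Divisorial (w + 1) P → ¬ Bd P → ∀ j0, F.coeff j0 ≠ 0 →
      (∀ j, F.coeff j = 0 ∨ P.ord (F.coeff j0) ≤ P.ord (F.coeff j)) →
      ∀ i, P.ord (F.eval (algebraMap k K (a i))) = P.ord (F.coeff j0) ∨
        (A : ℤ) ≤ ((A : ℤ) - c i) *
          (P.ord (F.eval (algebraMap k K (a i))) - P.ord (F.coeff j0))) :
    LogGeneralType k K (w + 1) Bd := by
  classical
  have hF0 : F ≠ 0 := hF.ne_zero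
  have hchK : CharZero K := charZero_of_injective_algebraMap (algebraMap k K).injective
  have hinf : Infinite k := inferInstance
  obtain ⟨r, hr, hroot, hcoef⟩ := exists_roots (L := L) F hF hs
  have hlead : F.leadingCoeff ≠ 0 := Polynomial.leadingCoeff_ne_zero.2 hF0
  have hrange : F.rootSet L = Set.range r := by
    apply Set.Subset.antisymm
    · intro x hx
      rw [Polynomial.mem_rootSet] at hx
      have h1 : (F.map (algebraMap K L)).eval x = 0 := by
        rw [Polynomial.eval_map_algebraMap]; exact hx.2
      have h2 : F.map (algebraMap K L) = Polynomial.C (algebraMap K L F.leadingCoeff) *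
          ∏ i, (Polynomial.X - Polynomial.C (r i)) := by
        ext j
        rw [Polynomial.coeff_map, Polynomial.coeff_C_mul]
        exact hcoef j
      rw [h2, Polynomial.eval_mul, Polynomial.eval_C, Polynomial.eval_prod] at h1
      have h3 := (mul_eq_zero.1 h1).resolve_left ((map_ne_zero _).2 hlead)
      obtain ⟨i, _, hi⟩ := Finset.prod_eq_zero_iff.1 h3
      rw [Polynomial.eval_sub, Polynomial.eval_X, Polynomial.eval_C, sub_eq_zero] at hi
      exact ⟨i, hi.symm⟩
    · rintro _ ⟨i, rfl⟩
      rw [Polynomial.mem_rootSet]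
      exact ⟨hF0, hroot i⟩
  rw [hrange] at htt hS
  have htrL : Algebra.trdeg k L = (w + 1 : ℕ) := by rw [trdeg_ext (K := K), htr]
  obtain ⟨ι, hι, hιne, J, hwd, hcard, hJb, hJr, hcov⟩ := exists_families_t htrL r htt hS
  have hS' : Algebra.IsAlgebraic (IntermediateField.adjoin k
      (insert (algebraMap K L t) (Set.range r))) L := by
    have h1 : IntermediateField.adjoin k (insert (algebraMap K L t) (Set.range r)) =
        (IntermediateField.adjoin (IntermediateField.adjoin k (Set.range r))
          {algebraMap K L t}).restrictScalars k := by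
      rw [IntermediateField.adjoin_adjoin_left]
      congr 1
      rw [Set.union_singleton]
    rw [h1]
    exact hS
  obtain ⟨x, hx, hxt⟩ := exists_norm_basis_t htr r t hS'
  have hb2 : A * (F.natDegree + w * Fintype.card ι) < ∑ i, c i :=
    lt_of_le_of_lt (Nat.mul_le_mul_left _ (Nat.add_le_add_left
      (Nat.mul_le_mul_left _ hcard) _)) hbound
  have hA : 0 < A := by
    rcases Nat.eq_zero_or_pos A with h | h
    · exfalso
      rw [h, zero_mul] at hb2
      have : ∑ i, c i = 0 := Finset.sum_eq_zero fun i _ => by
        have := hcA i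
        omega
      omega
    · exact h
  have h0' : ∀ i, ev K (F.natDegree + 1) F.coeff (algebraMap k K (a i)) ≠ 0 := fun i => by
    rw [ev_eq_eval]; exact h0 i
  have hroot' : ∀ i, ev L (F.natDegree + 1) F.coeff (r i) = 0 := fun i => by
    rw [ev_eq_aeval]; exact hroot i
  have hmin : ∀ P : Place k K, ∃ j0, F.coeff j0 ≠ 0 ∧
      ∀ j, F.coeff j = 0 ∨ P.ord (F.coeff j0) ≤ P.ord (F.coeff j) := by
    intro P
    obtain ⟨j0, hj0, hj1⟩ := Finset.exists_min_image F.support (fun j => P.ord (F.coeff j))
      (Polynomial.support_nonempty.2 hF0)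
    refine ⟨j0, Polynomial.mem_support_iff.1 hj0, fun j => ?_⟩
    by_cases hj : F.coeff j = 0
    · exact Or.inl hj
    · exact Or.inr (hj1 j (Polynomial.mem_support_iff.2 hj))
  -- `t` is not constant
  have htne : ∀ y : k, t ≠ algebraMap k K y := by
    rintro y rfl
    apply htt
    have e : algebraMap K L (algebraMap k K y) =
        algebraMap (IntermediateField.adjoin k (Set.range r)) L (algebraMap k _ y) := by
      rw [← IsScalarTower.algebraMap_apply, ← IsScalarTower.algebraMap_apply]
    rw [e]
    exact isAlgebraic_algebraMap _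
  set g : K := (∏ i, (t - algebraMap k K (b i)))⁻¹ with hg
  have hg0 : g ≠ 0 := inv_ne_zero (Finset.prod_ne_zero_iff.2 fun i _ => sub_ne_zero.2 (htne _))
  let ψ : Fin (w + 1 + 1) → K := Fin.cases 1 x
  have hψ : ∀ j, ψ j = 1 ∨ ψ j = t ∨ ∃ (i : Fin F.natDegree) (y : k),
      ψ j = Algebra.norm K (r i - algebraMap k L y) := by
    intro j
    refine Fin.cases ?_ (fun j => ?_) j
    · exact Or.inl rfl
    · exact Or.inr (hxt j)
  let ω : Fin (w + 1 + 1) → (Fin (w + 1) → Derivation k K K) → K := fun j =>
    phi2 F.leadingCoeff A c a J (F.natDegree + 1) F.coeff g t (ψ j)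
  refine ⟨htr, A * (Fintype.card ι * Module.finrank K L), ?_, ω, ?_, ?_, ?_, ?_⟩
  · exact Nat.mul_pos hA (Nat.mul_pos Fintype.card_pos Module.finrank_pos)
  · intro j
    exact phi2_pluri _ _ _ _ _ _ _ _ _ _
  · intro P _ j D hD
    obtain ⟨j0, hj0, hj1⟩ := hmin P
    obtain ⟨τ, hτ, hgt, hgD⟩ := log3 P b hb (fun i => htne (b i)) (bb := false)
      (fun h => absurd h (by simp))
    exact reg_phi2 (b := false) D hD F.coeff (c0 := P.ord (F.coeff j0)) (fun j _ => hj1 j) hj0 rfl
      a ha A hA c hcA h0' (fun h => absurd h (by simp)) hlead r hr hroot' hcoef J hJr hcov hb2 hτ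
      hgD hgt (ψ j) (hψ j)
  · intro P hP hBP j D hD
    obtain ⟨j0, hj0, hj1⟩ := hmin P
    obtain ⟨τ, hτ, hgt, hgD⟩ := log3 P b hb (fun i => htne (b i)) (bb := true)
      (fun _ i => by
        by_contra hcon
        exact hBP (hBd P ⟨i, not_le.1 hcon⟩))
    exact reg_phi2 (b := true) D hD F.coeff (c0 := P.ord (F.coeff j0)) (fun j _ => hj1 j) hj0 rfl
      a ha A hA c hcA h0' (fun _ i => by
        rw [ev_eq_eval]; exact hram P hP hBP j0 hj0 hj1 i) hlead r hr hroot' hcoef J hJr hcov hb2
      hτ hgD hgt (ψ j) (hψ j)
  · -- vector fields on which the forms do not vanish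
    have hD : ∀ i : Fin (w + 1), ∃ D : Derivation k K K, ∀ j, D (x j) = if i = j then 1 else 0 :=
      fun i => exists_der x hx (fun j => if i = j then 1 else 0)
    choose D hD using hD
    have hE : ∀ i, ∃ E : Derivation k L L, ∀ x : K, E (algebraMap K L x) =
        algebraMap K L (D i x) := fun i => exists_ext (D i)
    choose E hE using hE
    let JJ : ι → Fin (w + 1) → L := fun l => Fin.cons (algebraMap K L t) (J l)
    have hdet : ∀ l, (Matrix.of fun i j => E i (JJ l j)).det ≠ 0 := by
      intro l hl
      obtain ⟨v, hv0, hv⟩ := Matrix.exists_vecMul_eq_zero_iff.2 hl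
      have h1 : (∑ i, v i • E i : Derivation k L L) = 0 := by
        apply der_ext (JJ l) (hJb l)
        intro j
        rw [sum_smul_der]
        have := congrFun hv j
        exact this
      apply hv0
      funext j
      have h2 : (∑ i, v i • E i : Derivation k L L) (algebraMap K L (x j)) = v j := by
        rw [sum_smul_der, Finset.sum_eq_single j]
        · rw [hE, hD, if_pos rfl, map_one, mul_one]
        · intro i _ hij
          rw [hE, hD, if_neg hij, map_zero, mul_zero]
        · intro h
          exact absurd (Finset.mem_univ j) h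
      rw [h1] at h2
      exact h2.symm
    have hder : ∀ i (s : L), Polynomial.aeval s F = 0 →
        ev L (F.natDegree + 1) (fun j => D i (F.coeff j)) s =
          (- Polynomial.aeval s (Polynomial.derivative F)) * E i s := by
      intro i s hs'
      have h1 := der_ev (hE i) (F.natDegree + 1) F.coeff s
      rw [ev_eq_aeval, hs', map_zero] at h1
      have h2 : (∑ j ∈ Finset.range (F.natDegree + 1), algebraMap K L (F.coeff j) *
          ((j : L) * s ^ (j - 1))) = Polynomial.aeval s (Polynomial.derivative F) := by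
        exact sum_derivative F s
      rw [h2] at h1
      linear_combination -h1
    have hphi : ω 0 D ≠ 0 := by
      change phi2 F.leadingCoeff A c a J (F.natDegree + 1) F.coeff g t 1 D ≠ 0
      unfold phi2
      have hden : den F.leadingCoeff A c a J ≠ 0 := by
        unfold den
        refine mul_ne_zero (pow_ne_zero _ hlead) (Finset.prod_ne_zero_iff.2 fun l _ =>
          Finset.prod_ne_zero_iff.2 fun j _ => Finset.prod_ne_zero_iff.2 fun i _ =>
            pow_ne_zero _ (norm_ne (sub_ne_zero.2 ?_)))
        intro h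
        obtain ⟨i', hi'⟩ := hJr l j
        have h3 := hroot' i'
        rw [← hi', h, ev_const, map_eq_zero] at h3
        exact h0' i h3
      refine mul_ne_zero (div_ne_zero one_ne_zero hden) (pow_ne_zero _
        (Finset.prod_ne_zero_iff.2 fun l _ => norm_ne ?_))
      have h1 : mat2 (F.natDegree + 1) F.coeff (J l) g t D = Matrix.of fun i j =>
          (Fin.cons (algebraMap K L g)
            (fun j => - Polynomial.aeval (J l j) (Polynomial.derivative F)) :
              Fin (w + 1) → L) j * (Matrix.of fun i j => E i (JJ l j)) i j := by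
        ext i j
        refine Fin.cases ?_ (fun j => ?_) j
        · change algebraMap K L (g * D i t) = algebraMap K L g * E i (algebraMap K L t)
          rw [hE, map_mul]
        · obtain ⟨i', hi'⟩ := hJr l j
          exact hder i (J l j) (by rw [hi']; exact hroot i')
      rw [h1, Matrix.det_mul_row]
      refine mul_ne_zero (Finset.prod_ne_zero_iff.2 fun j _ => ?_) (hdet l)
      refine Fin.cases ?_ (fun j => ?_) j
      · exact (map_ne_zero _).2 hg0
      · obtain ⟨i', hi'⟩ := hJr l j
        change - Polynomial.aeval (J l j) (Polynomial.derivative F) ≠ 0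
        rw [hi']
        exact neg_ne_zero.2 (hF.aeval_derivative_ne_zero (hroot i'))
    refine ⟨D, hphi, ?_⟩
    have h2 : (fun i : Fin (w + 1) => ω i.succ D / ω 0 D) = x := by
      funext i
      rw [div_eq_iff hphi]
      change phi2 F.leadingCoeff A c a J (F.natDegree + 1) F.coeff g t (x i) D =
        x i * phi2 F.leadingCoeff A c a J (F.natDegree + 1) F.coeff g t 1 D
      unfold phi2
      ring
    rw [h2]
    exact hx.1

end Pool.Agent.Y190.QP
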