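import Pool.Agent.Y190.BV.Core

/-!
Logarithmic pluricanonical forms on function fields which are generated, up to algebraic extension,
by the roots of a ramified polynomial and by one more element, with three punctures.
-/

set_option autoImplicit false

open FF Pool.Agent.W603.LV Pool.Agent.W602.GT Pool.Agent.Y190.BV Cardinal

namespace Pool.Agent.Y190.QP

section log3

variable {k K : Type} [Field k] [Field K] [Algebra k K]

/-- the form `dt / ((t - b 0) (t - b 1) (t - b 2))` -/
theorem log3 (P : Place k K) {t : K} (b : Fin 3 → k) (hb : Function.Injective b)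
    (ht : ∀ i, t ≠ algebraMap k K (b i)) {bb : Bool}
    (hbb : bb = true → ∀ i, P.ord (t - algebraMap k K (b i)) ≤ 0) :
    ∃ τ : ℤ, 0 ≤ τ ∧ Ge P (-τ) t ∧ ∀ D : Derivation k K K, DKind bb P D →
      Ge P τ ((∏ i, (t - algebraMap k K (b i)))⁻¹ * D t) := by
  have hne : ∀ i, t - algebraMap k K (b i) ≠ 0 := fun i => sub_ne_zero.2 (ht i)
  have hprod : (∏ i, (t - algebraMap k K (b i))) ≠ 0 := Finset.prod_ne_zero_iff.2 fun i _ => hne i
  have hordg : P.ord (∏ i, (t - algebraMap k K (b i)))⁻¹ =
      -∑ i, P.ord (t - algebraMap k K (b i)) := by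
    rw [P.ord_inv, ord_prod' P _ _ fun i _ => hne i]
  refine ⟨tau P t, tau_nonneg P t, ge_tau P t, fun D hD => ?_⟩
  by_cases hτ : tau P t = 0
  · -- `t` is regular
    have hti : Ge P 0 t := by
      have := ge_tau P t
      rwa [hτ, neg_zero] at this
    have hvv : ∀ i, vv P t (b i) = P.ord (t - algebraMap k K (b i)) := by
      intro i
      unfold vv
      rw [hτ, add_zero]
    rw [hτ]
    by_cases hall : ∀ i, P.ord (t - algebraMap k K (b i)) = 0
    · have h1 : Ge P 0 (∏ i, (t - algebraMap k K (b i)))⁻¹ := by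
        right
        rw [hordg, Finset.sum_eq_zero fun i _ => hall i, neg_zero]
      have := h1.mul (hD.int hti)
      rwa [add_zero] at this
    · push Not at hall
      obtain ⟨i, hi⟩ := hall
      have hpos : 0 < vv P t (b i) := by
        have h1 := vv_nonneg P (ht i)
        rw [hvv] at h1 ⊢
        omega
      have hbf : bb = false := by
        by_contra hcon
        have h1 := hbb (by simpa using hcon) i
        rw [hvv] at hpos
        omega
      have hlog : DerLog P D := by
        rw [hbf] at hD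
        exact hD
      have h1 : ∑ l, P.ord (t - algebraMap k K (b l)) = P.ord (t - algebraMap k K (b i)) := by
        rw [Finset.sum_eq_single i]
        · intro l _ hl
          rw [← hvv l]
          exact vv_zero (fun h => hl (hb h).symm) (ht i) (ht l) hpos
        · intro h
          exact absurd (Finset.mem_univ i) h
      have h2 : D t = D (t - algebraMap k K (b i)) := by
        rw [map_sub, D.map_algebraMap, sub_zero]
      have h3 : Ge P 0 (D (t - algebraMap k K (b i)) / (t - algebraMap k K (b i))) := hlog _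
      have h4 := h3.mul (ge_ord P (t - algebraMap k K (b i)))
      rw [div_mul_cancel₀ _ (hne i), ← h2] at h4
      have h5 : Ge P (-P.ord (t - algebraMap k K (b i))) (∏ i, (t - algebraMap k K (b i)))⁻¹ := by
        right
        rw [hordg, h1]
      have := h5.mul h4
      refine this.mono ?_
      omega
  · -- `t` has a pole
    have hpos : 0 < tau P t := lt_of_le_of_ne (tau_nonneg P t) (Ne.symm hτ)
    have hot : P.ord t = - tau P t := by
      unfold tau at hpos ⊢
      rcases max_cases 0 (- P.ord t) with ⟨h2, _⟩ | ⟨h2, _⟩ <;> omega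
    have ht0 : t ≠ 0 := by
      rintro rfl
      rw [P.ord_zero] at hot
      omega
    have hvz : ∀ i, vv P t (b i) = 0 := by
      intro i
      by_contra h
      exact hτ (tau_of_vv P (ht i) (lt_of_le_of_ne (vv_nonneg P (ht i)) (Ne.symm h)))
    have h1 : ∑ l, P.ord (t - algebraMap k K (b l)) = -(3 * tau P t) := by
      have h2 : ∀ l, P.ord (t - algebraMap k K (b l)) = - tau P t := by
        intro l
        have := hvz l
        unfold vv at this
        omega
      rw [Finset.sum_congr rfl fun l _ => h2 l, Finset.sum_const, Finset.card_univ,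
        Fintype.card_fin]
      simp
    have h5 : Ge P (3 * tau P t) (∏ i, (t - algebraMap k K (b i)))⁻¹ := by
      right
      rw [hordg, h1, neg_neg]
    have h6 : Ge P (-(2 * tau P t)) (D t) := by
      cases bb with
      | false =>
        have h3 : Ge P 0 (D t / t) := hD t
        have h4 := h3.mul (ge_ord P t)
        rw [div_mul_cancel₀ _ ht0, hot] at h4
        exact h4.mono (by omega)
      | true =>
        have h3 : Ge P 0 (D t⁻¹) := hD t⁻¹ (Or.inr (by rw [P.ord_inv, hot]; omega))
        have h4 : D t = -(t ^ 2 * D t⁻¹) := by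
          rw [D.leibniz_inv, smul_eq_mul]
          field_simp
        rw [h4]
        refine ge_neg_iff ?_
        rw [neg_neg]
        have h7 : Ge P (2 * P.ord t) (t ^ 2) := by
          right
          rw [P.ord_pow]
          norm_num
        have := h7.mul h3
        refine this.mono ?_
        omega
    have := h5.mul h6
    refine this.mono ?_
    omega

end log3

section form

variable {k K L : Type} [Field k] [Field K] [Field L] [Algebra k K] [Algebra k L] [Algebra K L]
  [IsScalarTower k K L]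

variable {ι : Type} [Fintype ι] {w q d : ℕ}

/-- the matrix with one more column -/
noncomputable def mat2 (n : ℕ) (f : ℕ → K) (J : Fin w → L) (g t : K)
    (D : Fin (w + 1) → Derivation k K K) : Matrix (Fin (w + 1)) (Fin (w + 1)) L :=
  Matrix.of fun i => Fin.cons (algebraMap K L (g * D i t))
    (fun j => ev L n (fun m => D i (f m)) (J j))

/-- the forms -/
noncomputable def phi2 (lead : K) (A : ℕ) (c : Fin q → ℕ) (a : Fin q → k) (J : ι → Fin w → L)
    (n : ℕ) (f : ℕ → K) (g t ψ : K) (D : Fin (w + 1) → Derivation k K K) : K :=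
  ψ / den lead A c a J * (∏ l, Algebra.norm K (mat2 n f (J l) g t D).det) ^ A

theorem mat2_mul (n : ℕ) (f : ℕ → K) (J : Fin w → L) (g t : K)
    (B : Matrix (Fin (w + 1)) (Fin (w + 1)) K) (D : Fin (w + 1) → Derivation k K K) :
    mat2 n f J g t (fun i => ∑ l, B i l • D l) =
      (B.map (algebraMap K L)) * mat2 n f J g t D := by
  have h0 : ∀ (i : Fin (w + 1)) (s : Finset (Fin (w + 1))) (x : K), (∑ l ∈ s, B i l • D l) x
      = ∑ l ∈ s, B i l * D l x := by
    intro i s x
    classical
    induction s using Finset.induction_on with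
    | empty => simp
    | insert j s hj ih =>
      rw [Finset.sum_insert hj, Finset.sum_insert hj, Derivation.add_apply, ih]
      rfl
  ext i j
  rw [Matrix.mul_apply]
  refine Fin.cases ?_ (fun j => ?_) j
  · change algebraMap K L (g * (∑ l, B i l • D l) t) =
      ∑ l, algebraMap K L (B i l) * algebraMap K L (g * D l t)
    rw [h0, Finset.mul_sum, map_sum]
    refine Finset.sum_congr rfl fun l _ => ?_
    rw [← map_mul]
    congr 1
    ring
  · change ev L n (fun m => (∑ l, B i l • D l) (f m)) (J j) =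
      ∑ l, algebraMap K L (B i l) * ev L n (fun m => D l (f m)) (J j)
    unfold ev
    simp only [h0, map_sum, map_mul, Finset.sum_mul, Finset.mul_sum]
    rw [Finset.sum_comm]
    refine Finset.sum_congr rfl fun l _ => Finset.sum_congr rfl fun m _ => ?_
    ring

variable [FiniteDimensional K L] [IsGalois K L]

theorem phi2_pluri (lead : K) (A : ℕ) (c : Fin q → ℕ) (a : Fin q → k) (J : ι → Fin w → L)
    (n : ℕ) (f : ℕ → K) (g t ψ : K) :
    IsPluri (A * (Fintype.card ι * Module.finrank K L))
      (phi2 (k := k) lead A c a J n f g t ψ) := by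
  intro B D
  unfold phi2
  have h1 : ∀ l, Algebra.norm K (mat2 n f (J l) g t (fun i => ∑ j, B i j • D j)).det =
      B.det ^ Module.finrank K L * Algebra.norm K (mat2 n f (J l) g t D).det := by
    intro l
    rw [mat2_mul, Matrix.det_mul, map_mul]
    congr 1
    have : (B.map (algebraMap K L)).det = algebraMap K L B.det := by
      rw [RingHom.map_det]; rfl
    rw [this, Algebra.norm_algebraMap]
  rw [Finset.prod_congr rfl fun l _ => h1 l, Finset.prod_mul_distrib, Finset.prod_const,
    Finset.card_univ, mul_pow, ← pow_mul, ← pow_mul,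
    show Module.finrank K L * (Fintype.card ι * A) = A * (Fintype.card ι * Module.finrank K L) by
      ring]
  ring

/-- **The forms have no poles.** -/
theorem ge_phi2 [Nonempty ι] {W : Place k L} {P : Place k K} {e : ℕ} (hWP : Over W P e)
    {b : Bool} (D : Fin (w + 1) → Derivation k K K) (hD : ∀ i, DKind b P (D i)) (f : ℕ → K)
    {c0 : ℤ}
    (hf : ∀ j < d + 1, Ge P c0 (f j)) {j0 : ℕ} (hfj0 : f j0 ≠ 0) (hc0 : P.ord (f j0) = c0)
    (a : Fin q → k) (ha : Function.Injective a) (A : ℕ) (hA : 0 < A) (c : Fin q → ℕ)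
    (hcA : ∀ i, c i ≤ A)
    (h0 : ∀ i, ev K (d + 1) f (algebraMap k K (a i)) ≠ 0)
    (hram : b = true → ∀ i, P.ord (ev K (d + 1) f (algebraMap k K (a i))) = c0 ∨
      (A : ℤ) ≤ ((A : ℤ) - c i) * (P.ord (ev K (d + 1) f (algebraMap k K (a i))) - c0))
    {lead : K} (hlead : lead ≠ 0) (r : Fin d → L) (hr : Function.Injective r)
    (hroot : ∀ i, ev L (d + 1) f (r i) = 0)
    (hcoef : ∀ j, algebraMap K L (f j) = algebraMap K L lead *
      (∏ i, (Polynomial.X - Polynomial.C (r i))).coeff j)
    (J : ι → Fin w → L) (hJ : ∀ l j, ∃ i, J l j = r i)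
    (hcov : ∀ i, (∃ y : k, r i = algebraMap k L y) ∨ ∃ l j, J l j = r i)
    (hbound : A * (d + w * Fintype.card ι) < ∑ i, c i) {g t : K} {τ : ℤ} (hτ : 0 ≤ τ)
    (hg : ∀ D : Derivation k K K, DKind b P D → Ge P τ (g * D t))
    (ψ : K) (hψ : Ge W (- ∑ s : L ≃ₐ[K] L, TT (W.comp (rs s)) r) (algebraMap K L ψ)) :
    Ge W (e * τ) (algebraMap K L (phi2 lead A c a J (d + 1) f g t ψ D)) := by
  classical
  have hroot' : ∀ l j, ev L (d + 1) f (J l j) = 0 := by
    intro l j
    obtain ⟨i, hi⟩ := hJ l j
    rw [hi]; exact hroot i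
  have hJa : ∀ l j i, J l j ≠ algebraMap k L (a i) := by
    intro l j i h
    have := hroot' l j
    rw [h, ev_const, map_eq_zero] at this
    exact h0 i this
  have hent : ∀ (s : L ≃ₐ[K] L) (l : ι) (j : Fin w), ∃ N : ℤ,
      (∀ D : Derivation k K K, DKind b P D →
        Ge (W.comp (rs s)) N (ev L (d + 1) (fun j => D (f j)) (J l j))) ∧
      (A : ℤ) * (e * c0 - d * tau (W.comp (rs s)) (J l j)) +
        ∑ i, (c i : ℤ) * vv (W.comp (rs s)) (J l j) (a i) ≤ A * N := fun s l j =>
    entry (over_rs hWP s) f hf a ha A c hcA h0 hram (J l j) (hroot' l j)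
  choose N hN1 hN2 using hent
  obtain ⟨hden0, hden⟩ := ord_den (W := W) hlead A c a J hJa
  unfold phi2
  rw [map_mul, map_div₀, map_pow, map_prod]
  have h1 := ge_div ((map_ne_zero (algebraMap K L)).2 hden0) hψ
  have h2 : Ge W (∑ l : ι, ∑ s : L ≃ₐ[K] L, ((e : ℤ) * τ + ∑ j, N s l j))
      (∏ l, algebraMap K L (Algebra.norm K (mat2 (d + 1) f (J l) g t D).det)) := by
    refine Ge.prod _ _ _ fun l _ => ?_
    refine ge_norm _ fun s => ?_
    refine ge_det _ _ _ (fun i j => (Fin.cons ((e : ℤ) * τ) (N s l) : Fin (w + 1) → ℤ) j)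
      (fun i j => ?_) (fun σ => ?_)
    · refine Fin.cases ?_ (fun j => ?_) j
      · exact over_ge (over_rs hWP s) (hg _ (hD i))
      · exact hN1 s l j (D i) (hD i)
    · rw [Fin.sum_univ_succ]
      simp only [Fin.cons_zero, Fin.cons_succ]
      exact le_rfl
  refine (h1.mul (h2.pow A)).mono ?_
  rw [hden]
  -- the main inequality
  have h3 : (A : ℤ) * ∑ l : ι, ∑ s : L ≃ₐ[K] L, ((e : ℤ) * τ + ∑ j, N s l j) =
      ∑ s : L ≃ₐ[K] L, ∑ l, ∑ j, (A : ℤ) * N s l j +
        A * (Fintype.card ι * Fintype.card (L ≃ₐ[K] L)) * (e * τ) := by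
    simp only [Finset.sum_add_distrib, Finset.sum_const, Finset.card_univ, nsmul_eq_mul]
    rw [Finset.sum_comm, mul_add, Finset.mul_sum]
    have e1 : ∑ s : L ≃ₐ[K] L, (A : ℤ) * ∑ l, ∑ j, N s l j =
        ∑ s : L ≃ₐ[K] L, ∑ l, ∑ j, (A : ℤ) * N s l j := by
      refine Finset.sum_congr rfl fun s _ => ?_
      rw [Finset.mul_sum]
      refine Finset.sum_congr rfl fun l _ => ?_
      rw [Finset.mul_sum]
    rw [e1]
    ring
  rw [h3]
  have hc1 : ((A : ℤ) * (d + w * Fintype.card ι)) + 1 ≤ ∑ i, (c i : ℤ) := by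
    exact_mod_cast hbound
  have hmain : ∀ s : L ≃ₐ[K] L, TT (W.comp (rs s)) r +
      ∑ l, ∑ j, ((A : ℤ) * W.ord (algebraMap K L lead) +
        ∑ i, (c i : ℤ) * (W.comp (rs s)).ord (J l j - algebraMap k L (a i))) ≤
      ∑ l, ∑ j, (A : ℤ) * N s l j := by
    intro s
    set V := W.comp (rs s) with hV
    have hVP : Over V P e := over_rs hWP s
    have hlV : V.ord (algebraMap K L lead) = W.ord (algebraMap K L lead) := by
      rw [hVP.2, hWP.2]
    have hgc := ge_c0 hVP hfj0 hc0 r hcoef
    rw [hlV] at hgc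
    have hcovV := cover_le V r hr J hcov
    have hTT := TT_nonneg V r
    have h4 : ∀ l j, (A : ℤ) * W.ord (algebraMap K L lead) +
        ∑ i, (c i : ℤ) * V.ord (J l j - algebraMap k L (a i)) +
        ((∑ i, (c i : ℤ) - A * d) * tau V (J l j) - A * TT V r) ≤ (A : ℤ) * N s l j := by
      intro l j
      have h5 := hN2 s l j
      rw [← hV] at h5
      have h6 : ∑ i, (c i : ℤ) * vv V (J l j) (a i) =
          ∑ i, (c i : ℤ) * V.ord (J l j - algebraMap k L (a i)) +
          (∑ i, (c i : ℤ)) * tau V (J l j) := by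
        unfold vv
        simp only [mul_add, Finset.sum_add_distrib, Finset.sum_mul]
      rw [h6] at h5
      have h7 : (A : ℤ) * (W.ord (algebraMap K L lead) - TT V r) ≤ A * (e * c0) :=
        mul_le_mul_of_nonneg_left hgc (by positivity)
      linarith
    have h8 := Finset.sum_le_sum fun l (_ : l ∈ Finset.univ) =>
      Finset.sum_le_sum fun j (_ : j ∈ Finset.univ) => h4 l j
    refine le_trans ?_ h8
    have h9 : ∑ l : ι, ∑ j : Fin w, ((A : ℤ) * W.ord (algebraMap K L lead) +
        ∑ i, (c i : ℤ) * V.ord (J l j - algebraMap k L (a i)) +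
        ((∑ i, (c i : ℤ) - A * d) * tau V (J l j) - A * TT V r)) =
        ∑ l : ι, ∑ j : Fin w, ((A : ℤ) * W.ord (algebraMap K L lead) +
        ∑ i, (c i : ℤ) * V.ord (J l j - algebraMap k L (a i))) +
        ((∑ i, (c i : ℤ) - A * d) * (∑ l, ∑ j, tau V (J l j)) -
          A * (w * Fintype.card ι) * TT V r) := by
      simp only [Finset.sum_add_distrib, Finset.sum_sub_distrib, Finset.mul_sum, Finset.sum_const,
        Finset.card_univ, Fintype.card_fin, nsmul_eq_mul]
      ring
    rw [h9]
    have h10 : (∑ i, (c i : ℤ) - A * d) * TT V r ≤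
        (∑ i, (c i : ℤ) - A * d) * (∑ l, ∑ j, tau V (J l j)) := by
      apply mul_le_mul_of_nonneg_left hcovV
      have : (0 : ℤ) ≤ A * (w * Fintype.card ι) := by positivity
      nlinarith
    have h11 : TT V r ≤ (∑ i, (c i : ℤ) - A * d) * TT V r -
        A * (w * Fintype.card ι) * TT V r := by
      have e1 : (∑ i, (c i : ℤ) - A * d) * TT V r - A * (w * Fintype.card ι) * TT V r =
        (∑ i, (c i : ℤ) - A * (d + w * Fintype.card ι)) * TT V r := by ring
      rw [e1]
      have : (1 : ℤ) ≤ ∑ i, (c i : ℤ) - A * (d + w * Fintype.card ι) := by linarith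
      nlinarith
    linarith
  have h12 := Finset.sum_le_sum fun s (_ : s ∈ Finset.univ) => hmain s
  rw [Finset.sum_add_distrib] at h12
  have h13 : (e : ℤ) * τ ≤ A * (Fintype.card ι * Fintype.card (L ≃ₐ[K] L)) * (e * τ) := by
    have h14 : 0 ≤ (e : ℤ) * τ := by positivity
    have h15 : (1 : ℤ) ≤ A * (Fintype.card ι * Fintype.card (L ≃ₐ[K] L)) := by
      have h16 : 0 < A * (Fintype.card ι * Fintype.card (L ≃ₐ[K] L)) :=
        Nat.mul_pos hA (Nat.mul_pos Fintype.card_pos Fintype.card_pos)
      exact_mod_cast h16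
    nlinarith
  linarith

/-- The forms are regular or logarithmic at `P`. -/
theorem reg_phi2 [CharZero k] [Nonempty ι] {P : Place k K}
    {b : Bool} (D : Fin (w + 1) → Derivation k K K) (hD : ∀ i, DKind b P (D i)) (f : ℕ → K)
    {c0 : ℤ}
    (hf : ∀ j < d + 1, Ge P c0 (f j)) {j0 : ℕ} (hfj0 : f j0 ≠ 0) (hc0 : P.ord (f j0) = c0)
    (a : Fin q → k) (ha : Function.Injective a) (A : ℕ) (hA : 0 < A) (c : Fin q → ℕ)
    (hcA : ∀ i, c i ≤ A)
    (h0 : ∀ i, ev K (d + 1) f (algebraMap k K (a i)) ≠ 0)
    (hram : b = true → ∀ i, P.ord (ev K (d + 1) f (algebraMap k K (a i))) = c0 ∨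
      (A : ℤ) ≤ ((A : ℤ) - c i) * (P.ord (ev K (d + 1) f (algebraMap k K (a i))) - c0))
    {lead : K} (hlead : lead ≠ 0) (r : Fin d → L) (hr : Function.Injective r)
    (hroot : ∀ i, ev L (d + 1) f (r i) = 0)
    (hcoef : ∀ j, algebraMap K L (f j) = algebraMap K L lead *
      (∏ i, (Polynomial.X - Polynomial.C (r i))).coeff j)
    (J : ι → Fin w → L) (hJ : ∀ l j, ∃ i, J l j = r i)
    (hcov : ∀ i, (∃ y : k, r i = algebraMap k L y) ∨ ∃ l j, J l j = r i)
    (hbound : A * (d + w * Fintype.card ι) < ∑ i, c i) {g t : K} {τ : ℤ} (hτ : 0 ≤ τ)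
    (hg : ∀ D : Derivation k K K, DKind b P D → Ge P τ (g * D t)) (hgt : Ge P (-τ) t)
    (ψ : K) (hψ : ψ = 1 ∨ ψ = t ∨
      ∃ (i : Fin d) (y : k), ψ = Algebra.norm K (r i - algebraMap k L y)) :
    P.Reg (phi2 lead A c a J (d + 1) f g t ψ D) := by
  classical
  obtain ⟨S, T, _, hT, hsum⟩ := exists_places_over (K' := L) P
  have hSne : S.Nonempty := by
    by_contra hcon
    rw [Finset.not_nonempty_iff_eq_empty] at hcon
    rw [hcon, Finset.sum_empty] at hsum
    have : 0 < Module.finrank K L := Module.finrank_pos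
    omega
  obtain ⟨W, hW⟩ := hSne
  obtain ⟨e, hWP, _⟩ := hT W hW
  rw [← hWP.reg]
  have hTT : 0 ≤ ∑ s : L ≃ₐ[K] L, TT (W.comp (rs s)) r :=
    Finset.sum_nonneg fun s _ => TT_nonneg _ r
  have heτ : 0 ≤ (e : ℤ) * τ := by positivity
  have hmain := fun ψ hψ => ge_phi2 hWP D hD f hf hfj0 hc0 a ha A hA c hcA h0 hram hlead r hr
    hroot hcoef J hJ hcov hbound hτ hg ψ hψ
  have h1 := hmain 1 (by rw [map_one]; exact Ge.one.mono (by omega))
  rcases hψ with rfl | rfl | ⟨i, y, rfl⟩
  · exact h1.mono heτ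
  · have e1 : phi2 lead A c a J (d + 1) f g ψ ψ D = ψ * phi2 lead A c a J (d + 1) f g ψ 1 D := by
      unfold phi2
      ring
    rw [e1, map_mul]
    have h2 := (over_ge hWP hgt).mul h1
    refine h2.mono ?_
    rw [mul_neg]
    omega
  · refine (hmain _ ?_).mono heτ
    rw [← Finset.sum_neg_distrib]
    refine ge_norm _ fun s => ?_
    refine (ge_sub_const _ (r i) y).mono ?_
    have : tau (W.comp (rs s)) (r i) ≤ TT (W.comp (rs s)) r :=
      Finset.single_le_sum (fun j _ => tau_nonneg _ (r j)) (Finset.mem_univ i)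
    omega

end form

end Pool.Agent.Y190.QP
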