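import Pool.Agent.Y190.QP.StcU
import Pool.Agent.Y190.AN.Cg

/-!
The special sets of the complements of coordinate hyperplanes all agree.
-/

set_option autoImplicit false

open Filter Topology Set Metric

namespace Pool.Agent.Y190.QP

open FF Pool.Agent.W603.BP Pool.Agent.W601.PH Pool.Agent.Y190.BV
  Pool.Agent.W602.GT Pool.Agent.Y190.AN Pool.Agent.H159R3.GGLLog Pool.Agent.H159R3.NV

variable {N : ℕ} {ι : Type}

theorem coneU_eq (U : Set (Fin (N + 1))) (F : ι → MvPolynomial (Fin (N + 1)) ℂ) :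
    ConeU U F = Pts U F := by
  ext x
  constructor
  · rintro ⟨h1, h2, h3⟩
    exact ⟨h1, h2, fun e => by rw [← val_eq]; exact h3 e⟩
  · rintro ⟨h1, h2, h3⟩
    exact ⟨h1, h2, fun e => by rw [val_eq]; exact h3 e⟩

/-- **Essential punctured curves lie in the union of the lines.** -/
theorem spP_subU {n m : ℕ} (hm : 2 ≤ m) (hnm : n < 2 * m) (hN : 4 * n < N + 1)
    {a : Fin (N + 1) → ℂ} (ha : Function.Injective a) {U : Set (Fin (N + 1))}
    {F : ι → MvPolynomial (Fin (N + 1)) ℂ} (hF : ∀ e, IsForm (F e))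
    (hsub : ConeU U F ⊆ Cone (buchi a n m)) : SpP U F ⊆ SpL U F := by
  rintro x ⟨hx, h⟩
  rw [← coneU_eq] at hx
  refine ⟨hx, fun G hG hL => ?_⟩
  rw [val_eq]
  refine h G hG ?_
  intro f hf hE z hz
  have hM : ∀ i, MeromorphicOn (fun z => f z⁻¹ i) (exD 1 one_pos).U := fun i z hz =>
    (coord_an hf i z hz).meromorphicAt
  set y : Fin (N + 1) → MK (exD 1 one_pos) := fun i => cl _ (hM i) with hy
  have hzP : z ∈ PB 1 := mem_disc.1 hz
  have hext : ∀ {v : ℂ}, v ∈ Ext 1 → v⁻¹ ∈ ball (0 : ℂ) 1 \ {0} := by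
    intro v hv
    have hv1 : 1 < ‖v‖ := hv
    have hv0 : v ≠ 0 := by
      rintro rfl
      rw [norm_zero] at hv1
      linarith
    exact mem_disc.2 ⟨inv_ne_zero hv0, by
      rw [norm_inv]; exact inv_lt_one_of_one_lt₀ hv1⟩
  have hcl0 : ∀ i, cl _ (hM i) = 0 → ∀ v ∈ Ext 1, f v⁻¹ i = 0 := by
    intro i h0 v hv
    have h1 := cl_eq_zero.1 h0 v hv
    exact ((coord_an hf i v hv).frequently_zero_iff_eventually_zero.1
      h1.frequently).self_of_nhds
  have hy0 : y ≠ 0 := by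
    intro h0
    apply (hf.2 z hz).1
    funext i
    have h3 := hcl0 i (congrFun h0 i) z⁻¹ (inv_mem_ext hzP)
    rwa [inv_inv] at h3
  have hyU : ∀ j ∈ U, y j ≠ 0 := by
    intro j hj h0
    have h3 := hcl0 j h0 z⁻¹ (inv_mem_ext hzP)
    rw [inv_inv] at h3
    exact (hf.2 z hz).2.1 j hj h3
  have hyF : ∀ e, val y (F e) = 0 := by
    intro e
    rw [val_cl (F e) hM (eval_mero (F e) hM), cl_eq_zero]
    intro v hv
    have h1 : ∀ᶠ w in 𝓝 v, w ∈ Ext 1 := (Ext_open 1).mem_nhds hv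
    filter_upwards [nhdsWithin_le_nhds h1] with w hw
    exact (hf.2 w⁻¹ (hext hw)).2.2 e
  have hne : ∃ i j, y j ≠ 0 ∧ y i / y j ∉ Minf 1 one_pos := by
    by_contra hcon
    push Not at hcon
    exact hE (extends_of_minf hf hM hcon)
  have hinfK : Infinite (MK (exD 1 one_pos)) := by
    have : CharZero (MK (exD 1 one_pos)) :=
      charZero_of_injective_algebraMap (algebraMap ℂ (MK (exD 1 one_pos))).injective
    infer_instance
  obtain ⟨t, z', hyz, ⟨i, j, hij, hi, hj⟩, hzM, htM⟩ :=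
    struct_an2 hm hnm hN ha hy0 (sub_extU hsub hy0 hyU hyF) hne
  have htr : Transcendental (coords ℂ z') t := fun htalg =>
    htM (Minf_closed (Pool.Agent.Y190.AN.alg_mono hzM htalg))
  have h1 : val y G = 0 := by
    rcases U_cases U with ⟨jj, hjj, hjU⟩ | ⟨j1, j2, hU⟩
    · exfalso
      apply htM
      refine t_Minf ha hyz hzM hjj (fun i => hyU _ (hjU i)) fun z0 hz0 i => ?_
      have h2 : analyticOrderAt (fun z => f z⁻¹ (jj i)) z0 = ((0 : ℕ) : ℕ∞) := by
        rw [Nat.cast_zero, (coord_an hf (jj i) z0 hz0).analyticOrderAt_eq_zero]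
        exact (hf.2 z0⁻¹ (hext hz0)).2.1 _ (hjU i)
      have h3 := ord_cl (hg := hM (jj i)) hz0 (coord_an hf (jj i) z0 hz0) h2
      exact_mod_cast h3
    · exact vanish_gm hU y z' hyU ⟨i, j, wedge_ne ha hyz hij hi hj⟩
        (fun c c' e => line_vanish hyz hi htr (hF e) (hyF e) c c') hL
  rw [val_cl G hM (eval_mero G hM), cl_eq_zero] at h1
  have h2 := h1 z⁻¹ (inv_mem_ext hzP)
  have h3 : AnalyticAt ℂ (fun v => MvPolynomial.eval (fun i => f v⁻¹ i) G) z⁻¹ := by
    simp only [MvPolynomial.eval_eq']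
    apply Finset.analyticAt_fun_sum
    intro α _
    apply AnalyticAt.fun_mul analyticAt_const
    apply Finset.analyticAt_fun_prod
    intro j _
    exact (coord_an hf j z⁻¹ (inv_mem_ext hzP)).fun_pow _
  have h4 := (h3.frequently_zero_iff_eventually_zero.1 h2.frequently).self_of_nhds
  rw [inv_inv] at h4
  exact h4

/-- lines with two points removed are images of the multiplicative group -/
theorem spL_subT (U : Set (Fin (N + 1))) (F : ι → MvPolynomial (Fin (N + 1)) ℂ) :
    SpL U F ⊆ SpT U F := by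
  rintro x ⟨hx, h⟩
  rw [coneU_eq] at hx
  refine ⟨hx, fun G hG hv => ?_⟩
  rw [← val_eq]
  refine h G hG fun a b hab c c' hc hc' => ?_
  have hmem : ∀ t : ℂ, t ≠ 0 → c • a + t • b ∈ Pts U F := by
    intro t ht
    rw [← coneU_eq]
    exact hab.2 c t hc ht
  have hli := LinearIndependent.pair_iff.1 hab.1
  have h1 : TorusCurve U F (fun t => c • a + t • b) := by
    refine ⟨fun j => ?_, hmem, 2, 1, two_ne_zero, one_ne_zero, fun s hs => ?_⟩
    · have h2 := (Pool.Agent.H159R3.Exp.Laur.const (c * a j)).add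
        (Pool.Agent.H159R3.Exp.Laur.id.mul (Pool.Agent.H159R3.Exp.Laur.const (b j)))
      exact h2
    · have h2 : (c - s * c) • a + (2 - s) • b = 0 := by
        have h3 := sub_eq_zero.2 hs
        rw [← h3]
        funext i
        simp only [Pi.add_apply, Pi.sub_apply, Pi.smul_apply, smul_eq_mul]
        ring
      obtain ⟨e1, e2⟩ := hli _ _ h2
      have e3 : s = 2 := (sub_eq_zero.1 e2).symm
      rw [e3] at e1
      apply hc
      linear_combination -e1
  have h2 := hv _ h1 c' hc'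
  rw [val_eq]
  exact h2

theorem spT_subH (U : Set (Fin (N + 1))) (F : ι → MvPolynomial (Fin (N + 1)) ℂ) :
    SpT U F ⊆ SpH U F := by
  rintro x ⟨hx, h⟩
  refine ⟨hx, fun G hG hf => h G hG fun v hv t ht => ?_⟩
  have h1 := hf _ hv.entire (Complex.log t)
  simp only [Complex.exp_log ht] at h1
  exact h1

/-- **All the special sets agree.** -/
theorem special_six {n m : ℕ} (hm : 2 ≤ m) (hnm : n < 2 * m)
    (hN : 4 * n + (n + 1) ^ 2 < 2 * (N + 1)) {a : Fin (N + 1) → ℂ} (ha : Function.Injective a)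
    {U : Set (Fin (N + 1))} {F : ι → MvPolynomial (Fin (N + 1)) ℂ} (hF : ∀ e, IsForm (F e))
    (hsub : ConeU U F ⊆ Cone (buchi a n m)) :
    SpAlgU U F = SpL U F ∧ SpP U F = SpL U F ∧ SpH U F = SpL U F ∧ SpCg U F = SpL U F ∧
      SpT U F = SpL U F := by
  have h0 := spAlgU_eq' hm hnm hN ha hF hsub
  have h1 := spP_subU hm hnm (four_lt hN) ha hF hsub
  have h2 := spH_sub U F
  have h3 := spL_subT U F
  have h4 := spT_subH U F
  refine ⟨h0, Set.Subset.antisymm h1 (h3.trans (h4.trans h2)),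
    Set.Subset.antisymm (h2.trans h1) (h3.trans h4), ?_,
    Set.Subset.antisymm (h4.trans (h2.trans h1)) h3⟩
  rw [spCg_eq]
  exact Set.Subset.antisymm (h2.trans h1) (h3.trans h4)

end Pool.Agent.Y190.QP
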