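import Pool.Agent.Y190.AN.Ram

/-!
Squarefree polynomials over the field of meromorphic functions near infinity, without constant
roots, which are ramified over sufficiently many constants, with weights, near infinity.
-/

set_option autoImplicit false

open Filter Topology Set Metric Polynomial

namespace Pool.Agent.Y190.QP

open FF Pool.Agent.W603.BP Pool.Agent.W601.PH Pool.Agent.Y216 Pool.Agent.Y190.BV
  Pool.Agent.W603.LV Pool.Agent.Y190.AN
open Pool.Agent.W601.SM (dF)

variable {r0 : ℝ} {hr0 : 0 < r0}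

/-- **Ramified polynomials are meromorphic at infinity.** -/
theorem ratios_MinfW {R : (MK (exD r0 hr0))[X]} {d : ℕ} (hdeg : R.natDegree = d)
    (hsq : Squarefree R) (hroot : ∀ b : ℂ, R.eval (algebraMap ℂ (MK (exD r0 hr0)) b) ≠ 0)
    {p : ℕ} (a : Fin (p + 1) → ℂ) (ha : Function.Injective a) {A : ℕ} (c : Fin (p + 1) → ℕ)
    (hcA : ∀ i, c i ≤ A) (hp : 2 * d * A < ∑ i, c i) (R1 : ℝ)
    (hct : ∀ (z : ℂ) (hz : z ∈ (exD r0 hr0).U) (i : Fin (p + 1)), R1 < ‖z‖ →
      ct (PL hz) R (a i) = 0 ∨ (A : ℤ) ≤ ((A : ℤ) - c i) * ct (PL hz) R (a i))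
    (i : Fin (p + 1)) :
    R.eval (algebraMap ℂ (MK (exD r0 hr0)) (a i)) /
      R.eval (algebraMap ℂ (MK (exD r0 hr0)) (a 0)) ∈ Minf r0 hr0 := by
  classical
  have hR0 : R ≠ 0 := by
    rintro rfl
    exact hroot 0 (eval_zero)
  let x : Fin (d + 1) → MK (exD r0 hr0) := fun j => R.coeff j
  have hpx : R = pol x := eq_pol hdeg.le
  have hxl : x (Fin.last d) ≠ 0 := by
    change R.coeff ((Fin.last d : Fin (d + 1)) : ℕ) ≠ 0
    rw [Fin.val_last, ← hdeg, coeff_natDegree]
    exact leadingCoeff_ne_zero.2 hR0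
  obtain ⟨r1', h01', s, G, hG, hs, hGan', hGnz', hxG⟩ := primitive hr0 x fun h0 =>
    hxl (congrFun h0 _)
  set r1 : ℝ := max r1' R1 with hr1d
  have h01 : r0 < r1 := lt_of_lt_of_le h01' (le_max_left _ _)
  have hE1 : Ext r1 ⊆ Ext r1' := Ext_mono (le_max_left _ _)
  have hGan : ∀ z ∈ Ext r1, ∀ j, AnalyticAt ℂ (fun z => G z j) z := fun z hz => hGan' z (hE1 hz)
  have hGnz : ∀ z ∈ Ext r1, G z ≠ 0 := fun z hz => hGnz' z (hE1 hz)
  let y : Fin (d + 1) → MK (exD r0 hr0) := fun j => cl (fun z => G z j) (hG j)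
  have hxy : x = fun j => s * y j := funext hxG
  have hRy : R = C s * pol y := by rw [hpx, hxy, pol_smul]
  have hyl : y (Fin.last d) ≠ 0 := by
    intro h0
    apply hxl
    rw [hxG]
    exact mul_eq_zero_of_right s h0
  have hysq : Squarefree (pol y) := by
    rw [hRy] at hsq
    exact hsq.of_mul_right
  have hyroot : ∀ b : ℂ, (pol y).eval (algebraMap ℂ (MK (exD r0 hr0)) b) ≠ 0 := by
    intro b h0
    apply hroot b
    rw [hRy, eval_mul, h0, mul_zero]
  -- the linear forms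
  let u : Fin (p + 1) → ℂ := fun _ => 1
  have huv : ∀ i j, i ≠ j → u i * a j ≠ u j * a i := by
    intro i j hij h
    simp only [u, one_mul] at h
    exact hij (ha h.symm)
  have hUM : ∀ i, MeromorphicOn (Uf u a G i) (exD r0 hr0).U := by
    intro i
    have h1 : MeromorphicOn (fun z => ∑ l, rnc d u a i l * G z l) (exD r0 hr0).U :=
      MeromorphicOn.fun_sum fun l => (MeromorphicOn.const _).fun_mul (hG l)
    exact h1
  have hUcl : ∀ i, cl (Uf u a G i) (hUM i) =
      (pol y).eval (algebraMap ℂ (MK (exD r0 hr0)) (a i)) := by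
    intro i
    have h1 := cl_lin (fun l z => G z l) hG (rnc d u a i) (hUM i)
    refine h1.trans ?_
    unfold pol
    rw [eval_finsetSum]
    refine Finset.sum_congr rfl fun l _ => ?_
    rw [eval_mul, eval_C, eval_pow, eval_X, ← map_pow, mul_comm]
    have h2 : rnc d u a i l = a i ^ (l : ℕ) := by
      simp [rnc, u]
    rw [h2]
  have hUne : ∀ i, cl (Uf u a G i) (hUM i) ≠ 0 := fun i => by
    rw [hUcl]
    exact hyroot (a i)
  have hr1 : 0 < r1 := hr0.trans h01
  have hsubU : ∀ z ∈ Ext r1, z ∈ (exD r0 hr0).U := fun z hz => Ext_mono h01.le hz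
  have hne_of : ∀ (f : ℂ → ℂ) (hf : MeromorphicOn f (exD r0 hr0).U), cl f hf ≠ 0 →
      ∃ z ∈ Ext r1, f z ≠ 0 := by
    intro f hf hf0
    by_contra hcon
    push Not at hcon
    obtain ⟨z1, hz1⟩ := Ext_nonempty r1
    apply hf0
    rw [cl_eq_zero]
    refine zero_all hf (hsubU z1 hz1) ?_
    filter_upwards [nhdsWithin_le_nhds ((Ext_open r1).mem_nhds hz1)] with w hw
    exact hcon w hw
  obtain ⟨hPM, hPcl⟩ := cl_Pf G hG
  have hPne : cl (Pf G) hPM ≠ 0 := by
    rw [hPcl]
    exact res_ne_zero' (D := MDer (exD r0 hr0)) (fun x hx => MDer_eq_zero hx) hyl hysq hyroot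
  -- the orders
  have hcnt : ∀ z (hz : z ∈ Ext r1), cnt (PL (hsubU z hz)) R = (PL (hsubU z hz)).ord s := by
    intro z hz
    apply cnt_unique
    · intro j
      rw [hRy, coeff_C_mul]
      by_cases hj : j < d + 1
      · rw [coeff_pol_lt _ hj]
        have h1 : Ge (PL (hsubU z hz)) 0 (y ⟨j, hj⟩) := ge_cl _ (hGan z hz ⟨j, hj⟩)
        have h2 : Ge (PL (hsubU z hz)) ((PL (hsubU z hz)).ord s) s := Or.inr le_rfl
        have := h2.mul h1
        rwa [add_zero] at this
      · rw [coeff_pol_ge _ (by omega), mul_zero]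
        exact Ge.zero
    · obtain ⟨j, hj⟩ := Function.ne_iff.1 (hGnz z hz)
      have h1 : analyticOrderAt (fun z => G z j) z = ((0 : ℕ) : ℕ∞) := by
        rw [Nat.cast_zero, (hGan z hz j).analyticOrderAt_eq_zero]
        exact hj
      have h2 : (PL (hsubU z hz)).ord (y j) = 0 := by
        have := ord_cl (hg := hG j) (hsubU z hz) (hGan z hz j) h1
        exact_mod_cast this
      have h3 : y j ≠ 0 := by
        intro h0
        have h4 := cl_eq_zero.1 h0 z (hsubU z hz)
        have h5 : ∀ᶠ w in 𝓝[≠] z, G w j ≠ 0 :=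
          nhdsWithin_le_nhds ((hGan z hz j).continuousAt.eventually_ne hj)
        obtain ⟨w, hw1, hw2⟩ := (h4.and h5).exists
        exact hw2 hw1
      refine ⟨(j : ℕ), ?_, ?_⟩
      · rw [hRy, coeff_C_mul, coeff_pol]
        exact mul_ne_zero hs h3
      · rw [hRy, coeff_C_mul, coeff_pol, (PL (hsubU z hz)).ord_mul hs h3, h2, add_zero]
  have hord : ∀ z (hz : z ∈ Ext r1) i (b : ℕ), analyticOrderAt (Uf u a G i) z = b →
      ct (PL (hsubU z hz)) R (a i) = b := by
    intro z hz i b hb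
    unfold ct
    rw [hcnt z hz, hRy, eval_mul, eval_C, ← hUcl, (PL (hsubU z hz)).ord_mul hs (hUne i),
      ord_cl (hg := hUM i) (hsubU z hz) (evi_an (hGan z hz) i) hb]
    ring
  obtain ⟨Q, hQ, R0, hQ'⟩ := core_rs (n := d) huv hr1 (A := A) c hcA hp hGan hGnz
    (fun i => hne_of _ (hUM i) (hUne i)) (hne_of _ hPM hPne) (by
      intro z hz b hb
      rw [Finset.mul_sum]
      refine Finset.sum_le_sum fun i _ => ?_
      have hzR : R1 < ‖z‖ := lt_of_le_of_lt (le_max_right _ _) hz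
      have h1 := hct z (hsubU z hz) i hzR
      rw [hord z hz i (b i) (hb i)] at h1
      rcases Nat.eq_zero_or_pos (b i) with h0 | h0
      · rw [h0, mul_zero]
        exact Nat.zero_le _
      · have h2 := h1.resolve_left (by exact_mod_cast h0.ne')
        obtain ⟨b', hb'⟩ := Nat.exists_eq_add_of_le h0
        rw [hb'] at h2 ⊢
        have h3 : ((c i * (1 + b') : ℕ) : ℤ) ≤ ((A * (1 + b' - 1) : ℕ) : ℤ) := by
          rw [Nat.add_sub_cancel_left]
          push_cast at h2 ⊢
          linarith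
        exact_mod_cast h3) i
  have e : R.eval (algebraMap ℂ (MK (exD r0 hr0)) (a i)) /
      R.eval (algebraMap ℂ (MK (exD r0 hr0)) (a 0)) =
      cl (Uf u a G i / Uf u a G 0) ((hUM i).div (hUM 0)) := by
    rw [← cl_div (hUM i) (hUM 0), hUcl, hUcl, hRy, eval_mul, eval_mul, eval_C, eval_C,
      mul_div_mul_left _ _ hs]
  rw [e]
  refine mem_of_large (R := Q) (R0 := max R0 r0) hQ fun z hz => ?_
  have hzR : R0 < ‖z‖ := lt_of_le_of_lt (le_max_left _ _) hz
  have hzU : z ∈ (exD r0 hr0).U := lt_of_le_of_lt (le_max_right R0 r0) hz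
  have h2 := (meromorphicOrderAt_ne_top_iff_eventually_ne_zero (hUM 0 z hzU)).1
    (cl_ne_zero (hUne 0) z hzU)
  have h3 : ∀ᶠ w in 𝓝 z, R0 < ‖w‖ := (continuous_norm.tendsto z).eventually_const_lt hzR
  filter_upwards [h2, nhdsWithin_le_nhds h3] with w hw1 hw2
  rw [Pi.div_apply, hQ' w hw2, mul_div_cancel_right₀ _ hw1]

end Pool.Agent.Y190.QP
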