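import Pool.Agent.W602.GT.NG
import Pool.Agent.W602.GT.PsDefs

/-!
Function fields which are rational over a subfield, with at most two punctures, are not of log
general type.
-/

set_option autoImplicit false

open FF IntermediateField Pool.Agent.W603.LV Pool.Agent.W602.GT

namespace Pool.Agent.Y190.QP

variable {k K : Type} [Field k] [Field K] [Algebra k K]

theorem adjoin_mono_top {C C' : IntermediateField k K} (h : C ≤ C') {σ : K}
    (htop : IntermediateField.adjoin C {σ} = ⊤) : IntermediateField.adjoin C' {σ} = ⊤ := by
  have h1 : (IntermediateField.adjoin C {σ}).restrictScalars k ≤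
      (IntermediateField.adjoin C' {σ}).restrictScalars k := by
    rw [IntermediateField.restrictScalars_adjoin, IntermediateField.restrictScalars_adjoin]
    exact IntermediateField.adjoin.mono _ _ _ (Set.union_subset_union_left _ h)
  rw [eq_top_iff]
  intro x _
  apply h1
  rw [htop]
  exact IntermediateField.mem_top (F := C) (x := x)

/-- **Rational over a subfield with at most two punctures.** -/
theorem not_lgt_rat [CharZero k] {C : IntermediateField k K} {σ : K} (hσ : Transcendental C σ)
    (htop : IntermediateField.adjoin C {σ} = ⊤) {Bd : Place k K → Prop}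
    (hBd : ∀ P : Place k K, (∀ c ∈ C, c ≠ 0 → P.ord c = 0) → P.ord σ = 0 → ¬ Bd P) (w : ℕ) :
    ¬ LogGeneralType k K w Bd := by
  have hσ0 : σ ≠ 0 := by
    rintro rfl
    exact hσ isAlgebraic_zero
  have hb : IsTranscendenceBasis C (fun _ : Unit => σ) := by
    have h1 : AlgebraicIndependent C (fun _ : Unit => σ) :=
      (algebraicIndependent_unique_type_iff).2 hσ
    rw [h1.isTranscendenceBasis_iff_isAlgebraic]
    apply alg_adjoin
    have h2 : Set.range (fun _ : Unit => σ) = {σ} := by simp
    rw [h2, htop]
    infer_instance
  have hch : CharZero C := charZero_of_injective_algebraMap (algebraMap k C).injective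
  obtain ⟨D, hD⟩ := exists_der (L := C) (fun _ : Unit => σ) hb (fun _ => σ)
  have hDC : ∀ c ∈ C, D c = 0 := fun c hc => D.map_algebraMap ⟨c, hc⟩
  refine not_log_gt (D.restrictScalars k) hσ0 (hD ()) ?_ ?_
  · refine adjoin_mono_top (C := C) (fun c hc => ?_) htop
    exact hDC c hc
  · intro P hP hPσ
    exact hBd P (fun c hc hc0 => hP c (hDC c hc) hc0) hPσ

end Pool.Agent.Y190.QP
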