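import Pool.Agent.Y190.QP.Gml
import Pool.Agent.Y190.QP.StrU
import Pool.Agent.Y190.BV.Lang
import Pool.Agent.W602.GT.PsFin

/-!
The algebraic special set of the complements of coordinate hyperplanes.
-/

set_option autoImplicit false

open FF Pool.Agent.W603.LV Pool.Agent.W602.GT Pool.Agent.Y190.BV

namespace Pool.Agent.Y190.QP

variable {k : Type} [Field k] {N : ℕ} {ι : Type}

theorem trdeg_ratFunc : Algebra.trdeg k (RatFunc k) = (1 : ℕ) := by
  have h1 : AlgebraicIndependent k (fun _ : Unit => (RatFunc.X : RatFunc k)) :=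
    (algebraicIndependent_unique_type_iff).2 RatFunc.transcendental_X
  have h2 : IsTranscendenceBasis k (fun _ : Unit => (RatFunc.X : RatFunc k)) := by
    rw [h1.isTranscendenceBasis_iff_isAlgebraic]
    apply alg_adjoin
    have h3 : Set.range (fun _ : Unit => (RatFunc.X : RatFunc k)) = {RatFunc.X} := by simp
    rw [h3, RatFunc.adjoin_X]
    infer_instance
  have h4 := h2.cardinalMk_eq_trdeg
  rw [← h4]
  simp

theorem adjoin_mono_top' {K : Type} [Field K] [Algebra k K] {σ : K}
    (htop : IntermediateField.adjoin k {σ} = ⊤) :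
    IntermediateField.adjoin (⊥ : IntermediateField k K) {σ} = ⊤ := by
  have h1 : (IntermediateField.adjoin k {σ} : IntermediateField k K) ≤
      (IntermediateField.adjoin (⊥ : IntermediateField k K) {σ}).restrictScalars k := by
    rw [IntermediateField.restrictScalars_adjoin]
    exact IntermediateField.adjoin.mono _ _ _ Set.subset_union_right
  rw [eq_top_iff]
  intro x _
  apply h1
  rw [htop]
  exact IntermediateField.mem_top

/-- the generic point of a line -/
theorem gm_subvar [CharZero k] {U : Set (Fin (N + 1))}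
    {F : ι → MvPolynomial (Fin (N + 1)) k} {a b : Fin (N + 1) → k} (h : GmLine U F a b) :
    ∃ y : Fin (N + 1) → RatFunc k, SubVarU U F (RatFunc k) 1 y ∧
      ¬ LogGeneralType k (RatFunc k) 1 (OffU U y) ∧
      ∀ G : MvPolynomial (Fin (N + 1)) k, val y G = 0 →
        ∀ t : k, t ≠ 0 → val (a + t • b) G = 0 := by
  classical
  have hinf : Infinite k := inferInstance
  have hinj : Function.Injective (algebraMap (Polynomial k) (RatFunc k)) :=
    RatFunc.algebraMap_injective k
  let P : Fin (N + 1) → Polynomial k := fun i =>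
    Polynomial.C (a i) + Polynomial.X * Polynomial.C (b i)
  let y : Fin (N + 1) → RatFunc k := fun i => algebraMap (Polynomial k) (RatFunc k) (P i)
  have hCX : ∀ c : k, algebraMap (Polynomial k) (RatFunc k) (Polynomial.C c) =
      algebraMap k (RatFunc k) c := by
    intro c
    rw [IsScalarTower.algebraMap_apply k (Polynomial k) (RatFunc k)]
    rfl
  have hy : ∀ i, y i = algebraMap k (RatFunc k) (a i) + RatFunc.X * algebraMap k (RatFunc k) (b i) := by
    intro i
    simp only [y, P, map_add, map_mul, hCX, RatFunc.algebraMap_X]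
  have hP : ∀ t : k, (fun i => (P i).eval t) = a + t • b := by
    intro t
    funext i
    simp only [P, Polynomial.eval_add, Polynomial.eval_mul, Polynomial.eval_C, Polynomial.eval_X,
      Pi.add_apply, Pi.smul_apply, smul_eq_mul]
  have hval : ∀ G : MvPolynomial (Fin (N + 1)) k, val y G = 0 ↔
      ∀ t : k, t ≠ 0 → val (a + t • b) G = 0 := by
    intro G
    obtain ⟨Q, hQ1, hQ2⟩ := val_poly P G
    constructor
    · intro h0 t _
      have h1 : Q = 0 := hinj (by rw [hQ2, map_zero]; exact h0)
      rw [← hP, ← hQ1, h1, Polynomial.eval_zero]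
    · intro h0
      have h1 : Q = 0 := poly_zero fun t ht => by rw [hQ1, hP]; exact h0 t ht
      change val (fun i => algebraMap (Polynomial k) (RatFunc k) (P i)) G = 0
      rw [← hQ2, h1, map_zero]
  have hmem : ∀ t : k, t ≠ 0 → a + t • b ∈ ConeU U F := by
    intro t ht
    have := h.2 1 t one_ne_zero ht
    rwa [one_smul] at this
  have hli := LinearIndependent.pair_iff.1 h.1
  obtain ⟨i, j, hij⟩ : ∃ i j, a i * b j - a j * b i ≠ 0 := by
    by_contra hcon
    push Not at hcon
    by_cases ha : a = 0
    · exact one_ne_zero (hli 1 0 (by rw [ha]; simp)).1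
    · obtain ⟨j, hj⟩ := Function.ne_iff.1 ha
      refine hj (neg_eq_zero.1 (hli (b j) (-(a j)) ?_).2)
      funext i
      simp only [Pi.add_apply, Pi.smul_apply, smul_eq_mul, Pi.zero_apply]
      linear_combination hcon i j
  have hijK : algebraMap k (RatFunc k) (a i * b j - a j * b i) ≠ 0 := by
    rw [Ne, map_eq_zero]; exact hij
  have hyj : y j ≠ 0 := by
    intro h0
    have h1 : P j = 0 := hinj (by rw [map_zero]; exact h0)
    have h2 : a j = 0 := by
      have := congrArg (Polynomial.eval 0) h1
      simpa [P] using this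
    have h3 : b j = 0 := by
      have := congrArg (Polynomial.eval 1) h1
      simpa [P, h2] using this
    apply hij
    rw [h2, h3, mul_zero, zero_mul, sub_zero]
  have hyU : ∀ l ∈ U, y l ≠ 0 := by
    intro l hl h0
    have h1 : P l = 0 := hinj (by rw [map_zero]; exact h0)
    apply (hmem 1 one_ne_zero).2.1 l hl
    have h2 := congrFun (hP 1) l
    rw [← h2]
    change (P l).eval 1 = 0
    rw [h1, Polynomial.eval_zero]
  have hy0 : y ≠ 0 := fun h0 => hyj (congrFun h0 j)
  have hXmem : (RatFunc.X : RatFunc k) ∈ coords k y := by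
    have h1 : y i / y j ∈ coords k y := IntermediateField.subset_adjoin k _ ⟨i, j, hyj, rfl⟩
    have hc : ∀ c : k, algebraMap k (RatFunc k) c ∈ coords k y := fun c =>
      (coords k y).algebraMap_mem c
    have h2 : algebraMap k (RatFunc k) (b j) * (y i / y j) - algebraMap k (RatFunc k) (b i) ≠ 0 := by
      intro h0
      have h3 : algebraMap k (RatFunc k) (b j) * y i - algebraMap k (RatFunc k) (b i) * y j = 0 := by
        have e : algebraMap k (RatFunc k) (b j) * y i - algebraMap k (RatFunc k) (b i) * y j =
            (algebraMap k (RatFunc k) (b j) * (y i / y j) - algebraMap k (RatFunc k) (b i)) *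
              y j := by
          field_simp
        rw [e, h0, zero_mul]
      apply hijK
      rw [← h3, hy i, hy j, map_sub, map_mul, map_mul]
      ring
    have h3 : (RatFunc.X : RatFunc k) =
        (algebraMap k (RatFunc k) (a i) - algebraMap k (RatFunc k) (a j) * (y i / y j)) /
        (algebraMap k (RatFunc k) (b j) * (y i / y j) - algebraMap k (RatFunc k) (b i)) := by
      rw [eq_div_iff h2]
      have h4 : RatFunc.X * (algebraMap k (RatFunc k) (b j) * y i -
          algebraMap k (RatFunc k) (b i) * y j) =
          algebraMap k (RatFunc k) (a i) * y j - algebraMap k (RatFunc k) (a j) * y i := by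
        rw [hy i, hy j]
        ring
      have e1 : RatFunc.X * (algebraMap k (RatFunc k) (b j) * (y i / y j) -
          algebraMap k (RatFunc k) (b i)) = RatFunc.X * (algebraMap k (RatFunc k) (b j) * y i -
          algebraMap k (RatFunc k) (b i) * y j) / y j := by
        field_simp
      have e2 : algebraMap k (RatFunc k) (a i) - algebraMap k (RatFunc k) (a j) * (y i / y j) =
          (algebraMap k (RatFunc k) (a i) * y j - algebraMap k (RatFunc k) (a j) * y i) / y j := by
        field_simp
      rw [e1, e2, h4]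
    rw [h3]
    exact div_mem (sub_mem (hc _) (mul_mem (hc _) h1)) (sub_mem (mul_mem (hc _) h1) (hc _))
  have hgen : coords k y = ⊤ := by
    rw [eq_top_iff, ← RatFunc.adjoin_X, IntermediateField.adjoin_simple_le_iff]
    exact hXmem
  -- the units
  have hunit : ∀ l ∈ U, (a l ≠ 0 ∧ b l = 0) ∨ (a l = 0 ∧ b l ≠ 0) := by
    intro l hl
    by_cases ha : a l = 0
    · right
      refine ⟨ha, fun hb => ?_⟩
      apply (hmem 1 one_ne_zero).2.1 l hl
      simp [ha, hb]
    · left
      refine ⟨ha, ?_⟩
      by_contra hb
      have h1 : -(a l) / b l ≠ 0 := div_ne_zero (neg_ne_zero.2 ha) hb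
      apply (hmem _ h1).2.1 l hl
      simp only [Pi.add_apply, Pi.smul_apply, smul_eq_mul]
      field_simp
      ring
  refine ⟨y, ⟨hy0, hyU, fun e => (hval _).2 fun t ht => (hmem t ht).2.2 e, hgen,
    trdeg_ratFunc⟩, ?_, fun G hG => (hval G).1 hG⟩
  refine not_lgt_rat (C := (⊥ : IntermediateField k (RatFunc k))) (σ := RatFunc.X) ?_ ?_ ?_ 1
  · intro halg
    apply RatFunc.transcendental_X (K := k)
    have h1 : Algebra.IsAlgebraic k (⊥ : IntermediateField k (RatFunc k)) := inferInstance
    exact halg.restrictScalars k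
  · exact adjoin_mono_top' RatFunc.adjoin_X
  · rintro Pl hC hX ⟨l, hl, i', hi', hlt⟩
    have hge : ∀ c : k, Ge Pl 0 (algebraMap k (RatFunc k) c) := fun c => Ge.const c
    have hXge : Ge Pl 0 (RatFunc.X : RatFunc k) := Or.inr hX.ge
    have h1 : Ge Pl 0 (y i') := by
      rw [hy]
      have := hXge.mul (hge (b i'))
      rw [add_zero] at this
      exact (hge _).add this
    have h2 : 0 ≤ Pl.ord (y i') := h1.resolve_left hi'
    have h3 : Pl.ord (y l) = 0 := by
      rw [hy]
      rcases hunit l hl with ⟨ha, hb⟩ | ⟨ha, hb⟩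
      · rw [hb, map_zero, mul_zero, add_zero, Pl.ord_const ha]
      · rw [ha, map_zero, zero_add, Pl.ord_mul RatFunc.X_ne_zero (by
          rw [Ne, map_eq_zero]; exact hb), hX, Pl.ord_const hb, add_zero]
    omega

end Pool.Agent.Y190.QP
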