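import Pool.Agent.Y190.AN.Pic
import Pool.Agent.Y190.QP.RamW
import Pool.Agent.Y190.QP.SpB

/-!
Holomorphic maps from the punctured disc to the complements of coordinate hyperplanes.
-/

set_option autoImplicit false

open Filter Topology Set Metric Polynomial

namespace Pool.Agent.Y190.QP

open FF Pool.Agent.W603.BP Pool.Agent.W601.PH Pool.Agent.Y216 Pool.Agent.Y190.BV
  Pool.Agent.W603.LV Pool.Agent.W602.GT Pool.Agent.Y190.AN Pool.Agent.H159R3.GGLLog
  Pool.Agent.H159R3.NV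

variable {r0 : ℝ} {hr0 : 0 < r0}

/-- **Theorem B.** -/
theorem struct_an2 {n m N : ℕ} (hm : 2 ≤ m) (hnm : n < 2 * m) (hN : 4 * n < N + 1)
    {a : Fin (N + 1) → ℂ} (ha : Function.Injective a) {y : Fin (N + 1) → MK (exD r0 hr0)}
    (hy0 : y ≠ 0) (hy : ∀ l : Rel a n, val y (buchi a n m l) = 0)
    (hne : ∃ i j, y j ≠ 0 ∧ y i / y j ∉ Minf r0 hr0) :
    ∃ (t : MK (exD r0 hr0)) (z : Fin (N + 1) → MK (exD r0 hr0)),
      (∀ i, y i = (algebraMap ℂ (MK (exD r0 hr0)) (a i) - t) * z i) ∧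
      (∃ i j, i ≠ j ∧ z i ≠ 0 ∧ z j ≠ 0) ∧ coords ℂ z ≤ Minf r0 hr0 ∧ t ∉ Minf r0 hr0 := by
  classical
  have hn : n ≤ N := by omega
  obtain ⟨i1, j1, hj1, hij1⟩ := hne
  set H := intp a hn (fun i => y i ^ m) with hHd
  have hev : ∀ i, H.eval (algebraMap ℂ (MK (exD r0 hr0)) (a i)) = y i ^ m :=
    intp_eval ha hn m hy
  have hH : H ≠ 0 := by
    intro h0
    apply hy0
    funext i
    have h1 := hev i
    rw [h0, Polynomial.eval_zero] at h1
    exact eq_zero_of_pow_eq_zero h1.symm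
  have hHdeg : H.natDegree ≤ n := intp_natDegree ha hn _
  obtain ⟨p, hp, hpH⟩ : ∃ p : (MK (exD r0 hr0))[X], Irreducible p ∧ p ^ m ∣ H := by
    by_contra hcon
    push Not at hcon
    obtain ⟨u, H', hu, hHu⟩ := pow_Minf hm hN a ha H hH hHdeg (fun i => ⟨y i, (hev i).symm⟩) hcon
    apply hij1
    exact ratio_mem (m := m) (by omega) hu H' (by rw [← hHu, hev]) (by rw [← hHu, hev])
  -- the polynomial `p` is linear
  have hp1 : p.natDegree = 1 := by
    have h1 := Polynomial.natDegree_le_of_dvd hpH hH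
    rw [Polynomial.natDegree_pow] at h1
    have h2 := hp.natDegree_pos
    by_contra hne
    have h3 : 2 ≤ p.natDegree := by omega
    have h4 : m * 2 ≤ m * p.natDegree := Nat.mul_le_mul_left m h3
    omega
  obtain ⟨t, ht⟩ : ∃ t, p.eval t = 0 := by
    have h1 := Polynomial.exists_root_of_degree_eq_one (p := p)
      ((Polynomial.degree_eq_iff_natDegree_eq_of_pos one_pos).2 hp1)
    obtain ⟨t, ht⟩ := h1
    exact ⟨t, ht⟩
  obtain ⟨H', hH'⟩ : (Polynomial.X - Polynomial.C t) ^ m ∣ H :=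
    (pow_dvd_pow_of_dvd (Polynomial.dvd_iff_isRoot.2 ht) m).trans hpH
  have hH'0 : H' ≠ 0 := by
    rintro rfl
    rw [mul_zero] at hH'
    exact hH hH'
  have hdeg : H'.natDegree + m ≤ n := by
    have h4 := congrArg Polynomial.natDegree hH'
    rw [Polynomial.natDegree_mul (pow_ne_zero _ (Polynomial.X_sub_C_ne_zero t)) hH'0,
      Polynomial.natDegree_pow, Polynomial.natDegree_X_sub_C, mul_one] at h4
    omega
  have hev' : ∀ i, (algebraMap ℂ (MK (exD r0 hr0)) (a i) - t) ^ m *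
      H'.eval (algebraMap ℂ (MK (exD r0 hr0)) (a i)) = y i ^ m := by
    intro i
    rw [← hev i, hH', Polynomial.eval_mul, Polynomial.eval_pow, Polynomial.eval_sub,
      Polynomial.eval_X, Polynomial.eval_C]
  -- the polynomial `H'`
  obtain ⟨u, H'', hu, hHu⟩ : ∃ (u : MK (exD r0 hr0)) (H'' : (Minf r0 hr0)[X]), u ≠ 0 ∧
      H' = C u * H''.map (algebraMap (Minf r0 hr0) (MK (exD r0 hr0))) := by
    obtain ⟨N', rfl⟩ : ∃ N', N = N' + 1 := ⟨N - 1, by omega⟩
    obtain ⟨i0, hi0⟩ : ∃ i0 : Fin (N' + 1 + 1), ∀ i, i ≠ i0 →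
        algebraMap ℂ (MK (exD r0 hr0)) (a i) ≠ t := by
      by_cases h : ∃ i0, algebraMap ℂ (MK (exD r0 hr0)) (a i0) = t
      · obtain ⟨i0, hi0⟩ := h
        refine ⟨i0, fun i hi h1 => hi (ha ((algebraMap ℂ (MK (exD r0 hr0))).injective ?_))⟩
        rw [h1, hi0]
      · push Not at h
        exact ⟨0, fun i _ => h i⟩
    refine pow_Minf (n := n - m) (m := m) (N := N') hm (by omega)
      (fun j => a (i0.succAbove j)) (fun x y hxy => Fin.succAbove_right_injective (ha hxy)) H'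
      hH'0 (by omega) ?_ ?_
    · intro j
      have h1 : algebraMap ℂ (MK (exD r0 hr0)) (a (i0.succAbove j)) - t ≠ 0 :=
        sub_ne_zero.2 (hi0 _ (Fin.succAbove_ne i0 j))
      refine ⟨y (i0.succAbove j) / (algebraMap ℂ (MK (exD r0 hr0)) (a (i0.succAbove j)) - t), ?_⟩
      rw [div_pow, ← hev', mul_div_assoc, mul_div_cancel₀ _ (pow_ne_zero _ h1)]
    · intro p' hp' hdvd
      have h1 := Polynomial.natDegree_le_of_dvd hdvd hH'0
      rw [Polynomial.natDegree_pow] at h1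
      have h2 := hp'.natDegree_pos
      have h4 : m * 1 ≤ m * p'.natDegree := Nat.mul_le_mul_left m h2
      omega
  -- `t` is transcendental
  have htM : t ∉ Minf r0 hr0 := by
    intro htM
    apply hij1
    have hHt : H = C u * ((X - C (⟨t, htM⟩ : Minf r0 hr0)) ^ m * H'').map
        (algebraMap (Minf r0 hr0) (MK (exD r0 hr0))) := by
      rw [hH', hHu, Polynomial.map_mul, Polynomial.map_pow, Polynomial.map_sub, Polynomial.map_X,
        Polynomial.map_C]
      change (X - C t) ^ m * _ = C u * ((X - C t) ^ m * _)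
      ring
    exact ratio_mem (m := m) (by omega) hu _ (by rw [← hHt, hev]) (by rw [← hHt, hev])
  have hat : ∀ i, algebraMap ℂ (MK (exD r0 hr0)) (a i) - t ≠ 0 := by
    intro i h
    apply htM
    rw [← sub_eq_zero.1 h]
    exact (Minf r0 hr0).algebraMap_mem _
  set z : Fin (N + 1) → MK (exD r0 hr0) :=
    fun i => y i / (algebraMap ℂ (MK (exD r0 hr0)) (a i) - t) with hz
  have hyz : ∀ i, y i = (algebraMap ℂ (MK (exD r0 hr0)) (a i) - t) * z i := by
    intro i
    simp only [hz]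
    have := hat i
    field_simp
  have hzm : ∀ i, H'.eval (algebraMap ℂ (MK (exD r0 hr0)) (a i)) = z i ^ m := by
    intro i
    simp only [hz]
    rw [div_pow, ← hev', mul_div_assoc, mul_div_cancel₀ _ (pow_ne_zero _ (hat i))]
  have hz0 : ∃ i j, i ≠ j ∧ z i ≠ 0 ∧ z j ≠ 0 := by
    obtain ⟨i, j, hij, hi, hj⟩ := two_nonzero ha (d := H'.natDegree) (by omega) hH'0 le_rfl
    refine ⟨i, j, hij, ?_, ?_⟩
    · intro h0
      rw [hzm, h0, zero_pow (by omega)] at hi
      exact hi rfl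
    · intro h0
      rw [hzm, h0, zero_pow (by omega)] at hj
      exact hj rfl
  have hle : coords ℂ z ≤ Minf r0 hr0 := by
    unfold coords
    rw [IntermediateField.adjoin_le_iff]
    rintro _ ⟨i, j, hj, rfl⟩
    exact ratio_mem (m := m) (by omega) hu H'' (by rw [← hHu, hzm]) (by rw [← hHu, hzm])
  exact ⟨t, z, hyz, hz0, hle, htM⟩

/-- functions which are meromorphic at infinity have no zeros and poles near infinity -/
theorem ord_large {x : MK (exD r0 hr0)} (hx : x ∈ Minf r0 hr0) (h0 : x ≠ 0) :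
    ∃ R1 : ℝ, ∀ (z : ℂ) (hz : z ∈ (exD r0 hr0).U), R1 < ‖z‖ → (PL hz).ord x = 0 := by
  obtain ⟨g, hg, rfl, hgi⟩ := hx
  have h1 : ∀ᶠ w in 𝓝[≠] (0 : ℂ), AnalyticAt ℂ (fun w => g w⁻¹) w := by
    have h2 : MeromorphicAt (fun w => g w⁻¹) 0 := hgi
    exact h2.eventually_analyticAt
  have h2 : ∀ᶠ w in 𝓝[≠] (0 : ℂ), g w⁻¹ ≠ 0 := by
    rcases MeromorphicAt.eventually_eq_zero_or_eventually_ne_zero hgi with h | h
    · exfalso
      apply h0
      rw [cl_eq_zero]
      rw [eventually_nhdsWithin_iff, Metric.eventually_nhds_iff] at h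
      obtain ⟨ε, hε, h⟩ := h
      have hlarge : ∀ w : ℂ, ε⁻¹ < ‖w‖ → g w = 0 := by
        intro w hw
        have hw0 : w ≠ 0 := by
          rintro rfl
          rw [norm_zero] at hw
          exact absurd hw (not_lt.2 (inv_pos.2 hε).le)
        have h3 := h (y := w⁻¹) (by
          rw [dist_zero_right, norm_inv]
          exact inv_lt_of_inv_lt₀ hε hw) (inv_ne_zero hw0)
        simpa using h3
      obtain ⟨z1, hz1⟩ := Ext_nonempty (max ε⁻¹ r0)
      have hz1' : max ε⁻¹ r0 < ‖z1‖ := hz1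
      have hz1U : z1 ∈ (exD r0 hr0).U := lt_of_le_of_lt (le_max_right _ _) hz1'
      refine zero_all hg hz1U ?_
      have h4 : ∀ᶠ w in 𝓝 z1, ε⁻¹ < ‖w‖ :=
        (continuous_norm.tendsto z1).eventually_const_lt (lt_of_le_of_lt (le_max_left _ _) hz1')
      filter_upwards [nhdsWithin_le_nhds h4] with w hw
      exact hlarge w hw
    · exact h
  have h3 := h1.and h2
  rw [eventually_nhdsWithin_iff, Metric.eventually_nhds_iff] at h3
  obtain ⟨ε, hε, h3⟩ := h3
  refine ⟨ε⁻¹, fun z hz hzR => ?_⟩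
  have hz0 : z ≠ 0 := by
    rintro rfl
    rw [norm_zero] at hzR
    exact absurd hzR (not_lt.2 (inv_pos.2 hε).le)
  obtain ⟨h4, h5⟩ := h3 (y := z⁻¹) (by
    rw [dist_zero_right, norm_inv]
    exact inv_lt_of_inv_lt₀ hε hzR) (inv_ne_zero hz0)
  rw [inv_inv] at h5
  have h6 : AnalyticAt ℂ g z := by
    have h7 : AnalyticAt ℂ ((fun w => g w⁻¹) ∘ fun v : ℂ => v⁻¹) z :=
      AnalyticAt.comp (by exact h4) (analyticAt_inv hz0)
    have e : ((fun w => g w⁻¹) ∘ fun v : ℂ => v⁻¹) = g := by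
      funext v
      simp
    rwa [e] at h7
  rw [PL_cl hg hz, h6.meromorphicOrderAt_eq, h6.analyticOrderAt_eq_zero.2 h5]
  rfl

/-- three omitted values -/
theorem t_Minf {N : ℕ} {a : Fin (N + 1) → ℂ} (ha : Function.Injective a)
    {y z : Fin (N + 1) → MK (exD r0 hr0)} {t : MK (exD r0 hr0)}
    (hyz : ∀ i, y i = (algebraMap ℂ (MK (exD r0 hr0)) (a i) - t) * z i)
    (hz : coords ℂ z ≤ Minf r0 hr0) {jj : Fin 3 → Fin (N + 1)} (hjj : Function.Injective jj)
    (hy0 : ∀ i, y (jj i) ≠ 0) (hord : ∀ (z0 : ℂ) (hz0 : z0 ∈ (exD r0 hr0).U) (i : Fin 3),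
      (PL hz0).ord (y (jj i)) = 0) : t ∈ Minf r0 hr0 := by
  classical
  by_contra htM
  have hat : ∀ c : ℂ, algebraMap ℂ (MK (exD r0 hr0)) c - t ≠ 0 := by
    intro c h
    apply htM
    rw [← sub_eq_zero.1 h]
    exact (Minf r0 hr0).algebraMap_mem _
  have hzj : ∀ i, z (jj i) ≠ 0 := by
    intro i h0
    apply hy0 i
    rw [hyz, h0, mul_zero]
  have hR : ∀ i : Fin 3, ∃ R1 : ℝ, ∀ (z0 : ℂ) (hz0 : z0 ∈ (exD r0 hr0).U), R1 < ‖z0‖ →
      (PL hz0).ord (z (jj i) / z (jj 0)) = 0 := fun i =>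
    ord_large (hz (IntermediateField.subset_adjoin ℂ _ ⟨jj i, jj 0, hzj 0, rfl⟩))
      (div_ne_zero (hzj i) (hzj 0))
  choose R hR using hR
  -- orders
  have key : ∀ (z0 : ℂ) (hz0 : z0 ∈ (exD r0 hr0).U) (i : Fin 3), ∑ i, |R i| < ‖z0‖ →
      ct (PL hz0) (X - C t) (a (jj i)) = 0 := by
    intro z0 hz0 i hz1
    have hRi : ∀ i, R i < ‖z0‖ := fun i =>
      lt_of_le_of_lt ((le_abs_self _).trans (Finset.single_le_sum
        (f := fun i => |R i|) (fun _ _ => abs_nonneg _) (Finset.mem_univ i))) hz1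
    set P := PL hz0 with hP
    have hzo : ∀ i, P.ord (z (jj i)) = P.ord (z (jj 0)) := by
      intro i
      have h1 := hR i z0 hz0 (hRi i)
      rw [← hP, div_eq_mul_inv, P.ord_mul (hzj i) (inv_ne_zero (hzj 0)), P.ord_inv] at h1
      omega
    have heq : ∀ i, P.ord (algebraMap ℂ (MK (exD r0 hr0)) (a (jj i)) - t) =
        - P.ord (z (jj 0)) := by
      intro i
      have h1 := hord z0 hz0 i
      rw [← hP, hyz, P.ord_mul (hat _) (hzj i), hzo i] at h1
      omega
    -- another index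
    obtain ⟨i', hi'⟩ : ∃ i' : Fin 3, i' ≠ i := exists_ne i
    have hne : a (jj i) - a (jj i') ≠ 0 := sub_ne_zero.2 fun h => hi' (hjj (ha h)).symm
    have hle : P.ord (algebraMap ℂ (MK (exD r0 hr0)) (a (jj i)) - t) ≤ 0 := by
      by_contra hcon
      push Not at hcon
      have h2 : Ge P 1 (algebraMap ℂ (MK (exD r0 hr0)) (a (jj i)) - t) := Or.inr (by omega)
      have h3 : Ge P 1 (algebraMap ℂ (MK (exD r0 hr0)) (a (jj i')) - t) := Or.inr (by
        rw [heq i']
        rw [heq i] at hcon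
        omega)
      have h4 := h2.sub h3
      have e : algebraMap ℂ (MK (exD r0 hr0)) (a (jj i)) - t -
          (algebraMap ℂ (MK (exD r0 hr0)) (a (jj i')) - t) =
          algebraMap ℂ (MK (exD r0 hr0)) (a (jj i) - a (jj i')) := by
        rw [map_sub]; ring
      rw [e] at h4
      have h5 := h4.resolve_left fun h => hne ((_root_.map_eq_zero _).1 h)
      rw [P.ord_const hne] at h5
      omega
    have hev : (X - C t : (MK (exD r0 hr0))[X]).eval
        (algebraMap ℂ (MK (exD r0 hr0)) (a (jj i))) =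
        algebraMap ℂ (MK (exD r0 hr0)) (a (jj i)) - t := by
      rw [eval_sub, eval_X, eval_C]
    have hne0 : (X - C t : (MK (exD r0 hr0))[X]).eval
        (algebraMap ℂ (MK (exD r0 hr0)) (a (jj i))) ≠ 0 := by
      rw [hev]; exact hat _
    have h6 := ct_nonneg P hne0
    -- the content
    have h7 : P.ord (algebraMap ℂ (MK (exD r0 hr0)) (a (jj i)) - t) ≤ cnt P (X - C t) := by
      obtain ⟨j, hj, hj2⟩ := cnt_att P (X_sub_C_ne_zero t)
      rw [← hj2]
      have hj3 : j = 0 ∨ j = 1 := by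
        have h8 := le_natDegree_of_ne_zero hj
        rw [natDegree_X_sub_C] at h8
        omega
      rcases hj3 with rfl | rfl
      · rw [coeff_sub, coeff_X_zero, coeff_C_zero, zero_sub, P.ord_neg]
        have h8 : Ge P (P.ord (algebraMap ℂ (MK (exD r0 hr0)) (a (jj i)) - t))
            (algebraMap ℂ (MK (exD r0 hr0)) (a (jj i)) - t) := Or.inr le_rfl
        have h9 : Ge P (P.ord (algebraMap ℂ (MK (exD r0 hr0)) (a (jj i)) - t))
            (algebraMap ℂ (MK (exD r0 hr0)) (a (jj i))) := (Ge.const _).mono hle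
        have h10 := h9.sub h8
        rw [sub_sub_cancel] at h10
        refine h10.resolve_left ?_
        rintro rfl
        exact htM (Minf r0 hr0).zero_mem
      · rw [coeff_sub, coeff_X_one, coeff_C_of_ne_zero one_ne_zero, sub_zero, P.ord_one]
        exact hle
    unfold ct at h6 ⊢
    rw [hev] at h6 ⊢
    omega
  have hroot : ∀ b : ℂ, (X - C t : (MK (exD r0 hr0))[X]).eval
      (algebraMap ℂ (MK (exD r0 hr0)) b) ≠ 0 := by
    intro b
    rw [eval_sub, eval_X, eval_C]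
    exact hat b
  have hrat := ratios_MinfW (natDegree_X_sub_C t) (irreducible_X_sub_C t).squarefree hroot
    (fun i : Fin (2 + 1) => a (jj i)) (fun i j hij => hjj (ha hij)) (A := 1) (fun _ => 1)
    (fun _ => le_rfl) (by simp) (∑ i, |R i|)
    (fun z0 hz0 i hz1 => Or.inl (key z0 hz0 i hz1)) 1
  simp only [eval_sub, eval_X, eval_C] at hrat
  set ρ := (algebraMap ℂ (MK (exD r0 hr0)) (a (jj 1)) - t) /
    (algebraMap ℂ (MK (exD r0 hr0)) (a (jj 0)) - t) with hρ
  have h1 : algebraMap ℂ (MK (exD r0 hr0)) (a (jj 1)) - t =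
      ρ * (algebraMap ℂ (MK (exD r0 hr0)) (a (jj 0)) - t) := by
    rw [hρ, div_mul_cancel₀ _ (hat _)]
  have h2 : 1 - ρ ≠ 0 := by
    intro h0
    have h3 : ρ = 1 := (sub_eq_zero.1 h0).symm
    rw [h3, one_mul] at h1
    have h4 : algebraMap ℂ (MK (exD r0 hr0)) (a (jj 1)) =
        algebraMap ℂ (MK (exD r0 hr0)) (a (jj 0)) := sub_left_inj.1 h1
    have h5 := hjj (ha ((algebraMap ℂ (MK (exD r0 hr0))).injective h4))
    exact absurd h5 (by decide)
  have h3 : t = (algebraMap ℂ (MK (exD r0 hr0)) (a (jj 1)) -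
      ρ * algebraMap ℂ (MK (exD r0 hr0)) (a (jj 0))) / (1 - ρ) := by
    rw [eq_div_iff h2]
    linear_combination -h1
  apply htM
  rw [h3]
  exact (Minf r0 hr0).div_mem ((Minf r0 hr0).sub_mem ((Minf r0 hr0).algebraMap_mem _)
    ((Minf r0 hr0).mul_mem hrat ((Minf r0 hr0).algebraMap_mem _)))
    ((Minf r0 hr0).sub_mem (Minf r0 hr0).one_mem hrat)

end Pool.Agent.Y190.QP
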